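import Mathlib
import Pool.Agent.Work.MP_0fc146_gt_h31.Interface

/-!
# MP_0fc146_gt, block Brody (helper29)
-/

noncomputable section

open scoped Topology
open Filter Metric Set

namespace Pool.Agent.CircleShift

namespace BR

theorem deriv_bound {R : ℝ} {Lam : Set ℂ} (hLam : ∀ x : ℂ, ∃ v ∈ Lam, ‖x - v‖ ≤ R) {F : ℂ → ℂ}
    (hF : DifferentiableOn ℂ F {z | 0 < z.im})
    (hcrit : ∀ z : ℂ, 0 < z.im → F z ∈ Lam → deriv F z = 0) {z₀ : ℂ} (hz₀ : 0 < z₀.im) :
    ‖deriv F z₀‖ * z₀.im ≤ 96 * R := by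
  have hopen : IsOpen {z : ℂ | 0 < z.im} := isOpen_lt continuous_const Complex.continuous_im
  have hR : 0 ≤ R := by
    obtain ⟨v, _, hv⟩ := hLam 0
    exact (norm_nonneg _).trans hv
  set ρ : ℝ := z₀.im / 2 with hρ
  have hρ0 : 0 < ρ := by positivity
  have hball : closedBall z₀ ρ ⊆ {z : ℂ | 0 < z.im} := by
    intro z hz
    rw [mem_closedBall, dist_eq_norm] at hz
    have h1 := Complex.abs_im_le_norm (z - z₀)
    rw [Complex.sub_im] at h1
    have h2 := (abs_le.1 (h1.trans hz)).1
    change 0 < z.im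
    linarith
  have hdF : DifferentiableOn ℂ (deriv F) {z | 0 < z.im} := hF.deriv hopen
  -- maximum of `|F'| (ρ - |w - z₀|)`
  have hcont : ContinuousOn (fun w => ‖deriv F w‖ * (ρ - dist w z₀)) (closedBall z₀ ρ) := by
    refine ContinuousOn.mul ((hdF.continuousOn.mono hball).norm) ?_
    exact (continuous_const.sub (continuous_id.dist continuous_const)).continuousOn
  obtain ⟨w₁, hw₁, hmax⟩ := (isCompact_closedBall z₀ ρ).exists_isMaxOn ⟨z₀, by simp [hρ0.le]⟩ hcont
  set d : ℝ := ρ - dist w₁ z₀ with hd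
  set A : ℝ := ‖deriv F w₁‖ with hA
  have hM : ∀ w ∈ closedBall z₀ ρ, ‖deriv F w‖ * (ρ - dist w z₀) ≤ A * d := fun w hw => hmax hw
  have hM0 : ‖deriv F z₀‖ * ρ ≤ A * d := by
    have := hM z₀ (by simp [hρ0.le])
    simpa using this
  suffices h : A * d ≤ 48 * R by
    have h2 : ‖deriv F z₀‖ * z₀.im = 2 * (‖deriv F z₀‖ * ρ) := by rw [hρ]; ring
    rw [h2]; linarith
  by_contra hlt
  push Not at hlt
  have hAd : 0 < A * d := lt_of_le_of_lt (by positivity) hlt
  have hd0 : 0 ≤ d := by
    rw [hd]; rw [mem_closedBall] at hw₁; linarith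
  have hA0' : 0 ≤ A := norm_nonneg _
  have hdpos : 0 < d := by
    rcases hd0.lt_or_eq with h | h
    · exact h
    · rw [← h, mul_zero] at hAd; exact absurd hAd (lt_irrefl _)
  have hApos : 0 < A := by
    rcases hA0'.lt_or_eq with h | h
    · exact h
    · rw [← h, zero_mul] at hAd; exact absurd hAd (lt_irrefl _)
  -- the ball of radius `d / 2`
  have hin : ∀ w ∈ closedBall w₁ (d / 2), w ∈ closedBall z₀ ρ ∧ d / 2 ≤ ρ - dist w z₀ := by
    intro w hw
    rw [mem_closedBall] at hw ⊢
    have := dist_triangle w w₁ z₀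
    constructor <;> linarith
  have hb : ∀ w ∈ closedBall w₁ (d / 2), ‖deriv F w‖ ≤ 2 * A := by
    intro w hw
    obtain ⟨h1, h2⟩ := hin w hw
    have h3 := hM w h1
    have h4 : ‖deriv F w‖ * (d / 2) ≤ A * d :=
      (mul_le_mul_of_nonneg_left h2 (norm_nonneg _)).trans h3
    have h5 : ‖deriv F w‖ * d ≤ (2 * A) * d := by linarith
    exact le_of_mul_le_mul_right h5 hdpos
  -- Schwarz
  have hsch : ∀ w ∈ ball w₁ (d / 2), ‖deriv F w - deriv F w₁‖ ≤ 6 * A / d * ‖w - w₁‖ := by
    intro w hw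
    have h1 : DifferentiableOn ℂ (deriv F) (ball w₁ (d / 2)) :=
      hdF.mono fun w hw => hball (hin w (ball_subset_closedBall hw)).1
    have h2 : MapsTo (deriv F) (ball w₁ (d / 2)) (closedBall (deriv F w₁) (3 * A)) := by
      intro w hw
      rw [mem_closedBall, dist_eq_norm]
      have := norm_sub_le (deriv F w) (deriv F w₁)
      have := hb w (ball_subset_closedBall hw)
      linarith
    have h3 := Complex.dist_le_div_mul_dist_of_mapsTo_ball h1 h2 hw
    rw [dist_eq_norm, dist_eq_norm] at h3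
    refine h3.trans (le_of_eq ?_)
    congr 1
    field_simp
    ring
  set s : ℝ := d / 12 with hs
  have hs0 : 0 < s := by positivity
  have hsub : closedBall w₁ s ⊆ ball w₁ (d / 2) := closedBall_subset_ball (by rw [hs]; linarith)
  have hsm : ∀ w ∈ closedBall w₁ s, ‖deriv F w - deriv F w₁‖ ≤ A / 2 := by
    intro w hw
    refine (hsch w (hsub hw)).trans ?_
    rw [mem_closedBall, dist_eq_norm] at hw
    calc 6 * A / d * ‖w - w₁‖ ≤ 6 * A / d * s := by gcongr
      _ = A / 2 := by rw [hs]; field_simp; ring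
  have hne : ∀ w ∈ closedBall w₁ s, deriv F w ≠ 0 := by
    intro w hw h0
    have := hsm w hw
    rw [h0, zero_sub, norm_neg] at this
    linarith
  -- lower bound on the sphere
  have hup : closedBall w₁ s ⊆ {z : ℂ | 0 < z.im} := fun w hw =>
    hball (hin w (ball_subset_closedBall (hsub hw))).1
  have hlow : ∀ w ∈ sphere w₁ s, A * s / 2 ≤ ‖F w - F w₁‖ := by
    intro w hw
    have hwc := sphere_subset_closedBall hw
    have hder : ∀ x ∈ closedBall w₁ s, HasDerivWithinAt (fun x => F x - deriv F w₁ * x)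
        (deriv F x - deriv F w₁) (closedBall w₁ s) x := by
      intro x hx
      have h1 : HasDerivAt F (deriv F x) x :=
        ((hF x (hup hx)).differentiableAt (hopen.mem_nhds (hup hx))).hasDerivAt
      have h2 : HasDerivAt (fun x => deriv F w₁ * x) (deriv F w₁) x := by
        simpa using (hasDerivAt_id x).const_mul (deriv F w₁)
      exact (h1.sub h2).hasDerivWithinAt
    have h3 := Convex.norm_image_sub_le_of_norm_hasDerivWithin_le hder hsm
      (convex_closedBall w₁ s) (mem_closedBall_self hs0.le) hwc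
    rw [mem_sphere, dist_eq_norm] at hw
    rw [hw] at h3
    have h4 : F w - F w₁ = (F w - deriv F w₁ * w - (F w₁ - deriv F w₁ * w₁)) +
        deriv F w₁ * (w - w₁) := by ring
    have h5 : ‖deriv F w₁ * (w - w₁)‖ = A * s := by rw [norm_mul, hw]
    have h6 := norm_sub_norm_le (deriv F w₁ * (w - w₁))
      (-(F w - deriv F w₁ * w - (F w₁ - deriv F w₁ * w₁)))
    rw [norm_neg, sub_neg_eq_add, h5] at h6
    rw [h4, add_comm]
    linarith
  have hfreq : ∃ᶠ z in 𝓝 w₁, F z ≠ F w₁ := by
    intro hcon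
    have h1 : F =ᶠ[𝓝 w₁] fun _ => F w₁ := by
      filter_upwards [hcon] with z hz
      simpa using hz
    have h2 := h1.deriv_eq
    rw [deriv_const] at h2
    exact hne w₁ (mem_closedBall_self hs0.le) h2
  have hdiff : DiffContOnCl ℂ F (ball w₁ s) := by
    refine DifferentiableOn.diffContOnCl ?_
    rw [closure_ball w₁ hs0.ne']
    exact hF.mono hup
  have himg := hdiff.ball_subset_image_closedBall hs0 hlow hfreq
  obtain ⟨v, hv, hvR⟩ := hLam (F w₁)
  have hvb : v ∈ ball (F w₁) (A * s / 2 / 2) := by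
    rw [mem_ball, dist_comm, dist_eq_norm]
    refine lt_of_le_of_lt hvR ?_
    have : A * s / 2 / 2 = A * d / 48 := by rw [hs]; ring
    rw [this]; linarith
  obtain ⟨w, hw, hwv⟩ := himg hvb
  exact hne w hw (hcrit w (hup hw) (hwv ▸ hv))

end BR

theorem stmt_Brody : Stmt_Brody := by
  intro R
  refine ⟨96 * R, fun Lam hLam F hF hcrit z hz => ?_⟩
  exact BR.deriv_bound hLam hF hcrit hz

end Pool.Agent.CircleShift
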