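import Mathlib
import Pool.Agent.Work.MP_0fc146_gt_h31.Interface

/-!
# MP_0fc146_gt, block Mfd (helper29)
-/

noncomputable section

open scoped Topology Manifold ContDiff UpperHalfPlane
open Filter Metric Set

namespace Pool.Agent.CircleShift

namespace MF

theorem root_diff {h P : ℂ → ℂ} {x : ℂ} {k : ℕ} (hk : 0 < k) (hc : ContinuousAt h x)
    (hP : DifferentiableAt ℂ P x) (hh : ∀ᶠ y in 𝓝 x, h y ^ k = P y) (h0 : h x ≠ 0) :
    DifferentiableAt ℂ h x := by
  have hS : Tendsto (fun y => ∑ i ∈ Finset.range k, h y ^ i * h x ^ (k - 1 - i)) (𝓝 x)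
      (𝓝 (k * h x ^ (k - 1))) := by
    have h1 : Tendsto (fun y => ∑ i ∈ Finset.range k, h y ^ i * h x ^ (k - 1 - i)) (𝓝 x)
        (𝓝 (∑ i ∈ Finset.range k, h x ^ i * h x ^ (k - 1 - i))) :=
      tendsto_finsetSum _ fun i _ => (hc.tendsto.pow i).mul_const _
    have h2 : ∑ i ∈ Finset.range k, h x ^ i * h x ^ (k - 1 - i) = k * h x ^ (k - 1) := by
      rw [Finset.sum_congr rfl (g := fun _ => h x ^ (k - 1))]
      · simp
      · intro i hi
        rw [← pow_add]
        congr 1
        have := Finset.mem_range.1 hi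
        omega
    rwa [h2] at h1
  have hne : (k * h x ^ (k - 1) : ℂ) ≠ 0 := by
    have : (k : ℂ) ≠ 0 := by exact_mod_cast hk.ne'
    exact mul_ne_zero this (pow_ne_zero _ h0)
  have hxk : h x ^ k = P x := hh.self_of_nhds
  refine (hasDerivAt_iff_tendsto_slope.2 ?_ : HasDerivAt h (deriv P x / (k * h x ^ (k - 1))) x).differentiableAt
  have h3 : Tendsto (slope P x) (𝓝[≠] x) (𝓝 (deriv P x)) :=
    hasDerivAt_iff_tendsto_slope.1 hP.hasDerivAt
  have h4 := h3.div (hS.mono_left nhdsWithin_le_nhds) hne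
  refine h4.congr' ?_
  have h5 : ∀ᶠ y in 𝓝[≠] x, (∑ i ∈ Finset.range k, h y ^ i * h x ^ (k - 1 - i)) ≠ 0 :=
    (hS.mono_left nhdsWithin_le_nhds).eventually_ne hne
  filter_upwards [h5, hh.filter_mono nhdsWithin_le_nhds, self_mem_nhdsWithin] with y hy1 hy2 hy3
  have hyx : y - x ≠ 0 := sub_ne_zero.2 hy3
  have h6 : (∑ i ∈ Finset.range k, h y ^ i * h x ^ (k - 1 - i)) * (h y - h x) = P y - P x := by
    rw [← hy2, ← hxk]
    exact (Commute.all _ _).geom_sum₂_mul k
  rw [slope_def_field, Pi.div_apply, slope_def_field, ← h6]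
  field_simp

theorem root {h P : ℂ → ℂ} {x₀ : ℂ} {k : ℕ} (hk : 0 < k) (hc : ∀ᶠ x in 𝓝 x₀, ContinuousAt h x)
    (hP : AnalyticAt ℂ P x₀) (hh : ∀ᶠ x in 𝓝 x₀, h x ^ k = P x) : AnalyticAt ℂ h x₀ := by
  rcases hP.eventually_eq_zero_or_eventually_ne_zero with h1 | h1
  · have : h =ᶠ[𝓝 x₀] fun _ => 0 := by
      filter_upwards [h1, hh] with z hz1 hz2
      rw [hz1] at hz2
      exact (pow_eq_zero_iff hk.ne').1 hz2
    exact (analyticAt_congr this).2 analyticAt_const
  · refine Complex.analyticAt_of_differentiable_on_punctured_nhds_of_continuousAt ?_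
      hc.self_of_nhds
    have hP' := hP.eventually_analyticAt
    filter_upwards [h1, hc.filter_mono nhdsWithin_le_nhds,
      hh.eventually_nhds.filter_mono nhdsWithin_le_nhds,
      hP'.filter_mono nhdsWithin_le_nhds] with z hz1 hz2 hz3 hz4
    refine root_diff hk hz2 hz4.differentiableAt hz3 ?_
    intro h0
    have := hz3.self_of_nhds
    rw [h0, zero_pow hk.ne'] at this
    exact hz1 this.symm


section charts

variable {U : Type} [TopologicalSpace U] [MulAction G U] {D : U → ℂ} {tau : G → ℂ}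
  {C₀ : U} {q₀ : ℂ}

/-- admissible charts -/
def Adm (D : U → ℂ) (e : OpenPartialHomeomorph U ℂ) : Prop :=
  ∃ (k : ℕ) (t : ℂ), 0 < k ∧ ∀ y ∈ e.source, D y = e y ^ k + t

theorem exists_chart (hact : ∀ g : G, Continuous (fun u : U => g • u))
    (H : BrData U D tau C₀ q₀) (u : U) :
    ∃ e : OpenPartialHomeomorph U ℂ, u ∈ e.source ∧ Adm D e ∧
      ((∃ g, D u = tau g) → e u = 0 ∧ ∃ t : ℂ, ∀ y ∈ e.source, D y = e y ^ 3 + t) := by
  by_cases hu : ∃ g, D u = tau g
  · obtain ⟨g, hg⟩ := hu
    obtain ⟨g', rfl⟩ := H.fib u g hg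
    obtain ⟨e, he1, he2, he3⟩ := H.cone
    let F : U ≃ₜ U :=
      { toFun := fun y => g'⁻¹ • y
        invFun := fun y => g' • y
        left_inv := fun y => smul_inv_smul g' y
        right_inv := fun y => inv_smul_smul g' y
        continuous_toFun := hact g'⁻¹
        continuous_invFun := hact g' }
    have hF : ∀ y, F y = g'⁻¹ • y := fun _ => rfl
    refine ⟨F.toOpenPartialHomeomorph.trans e, ?_, ?_, ?_⟩
    · simp [hF, he1]
    · refine ⟨3, -tau g'⁻¹, by norm_num, fun y hy => ?_⟩
      have hy' : g'⁻¹ • y ∈ e.source := by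
        simpa [hF] using hy
      have h1 := he3 _ hy'
      rw [H.equiv] at h1
      have h2 : (F.toOpenPartialHomeomorph.trans e) y = e (g'⁻¹ • y) := by simp [hF]
      rw [h2, h1]; ring
    · intro _
      constructor
      · have h2 : (F.toOpenPartialHomeomorph.trans e) (g' • C₀) = e (g'⁻¹ • g' • C₀) := by
          simp [hF]
        rw [h2, inv_smul_smul, he2]
      · refine ⟨-tau g'⁻¹, fun y hy => ?_⟩
        have hy' : g'⁻¹ • y ∈ e.source := by
          simpa [hF] using hy
        have h1 := he3 _ hy'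
        rw [H.equiv] at h1
        have h2 : (F.toOpenPartialHomeomorph.trans e) y = e (g'⁻¹ • y) := by simp [hF]
        rw [h2, h1]; ring
  · obtain ⟨e, he1, he2⟩ := H.loc u (by
      rintro g rfl
      refine hu ⟨g, ?_⟩
      rw [H.equiv, H.zero, zero_add])
    exact ⟨e, he1, ⟨1, 0, one_pos, fun y hy => by rw [he2 y hy]; ring⟩, fun h => absurd h hu⟩

/-- the charted space -/
@[reducible] def cspace (hact : ∀ g : G, Continuous (fun u : U => g • u))
    (H : BrData U D tau C₀ q₀) : ChartedSpace ℂ U where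
  atlas := {e | Adm D e}
  chartAt u := (exists_chart hact H u).choose
  mem_chart_source u := (exists_chart hact H u).choose_spec.1
  chart_mem_atlas u := (exists_chart hact H u).choose_spec.2.1

/-- transitions -/
theorem transition {e e' : OpenPartialHomeomorph U ℂ} (he : Adm D e)
    (he' : Adm D e') :
    ContDiffOn ℂ ω (e.symm ≫ₕ e') (e.symm ≫ₕ e').source := by
  obtain ⟨k, t, hk, h⟩ := he
  obtain ⟨k', t', hk', h'⟩ := he'
  have hopen : IsOpen (e.symm ≫ₕ e').source := (e.symm ≫ₕ e').open_source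
  intro x hx
  refine (AnalyticAt.contDiffAt ?_).contDiffWithinAt
  refine root (P := fun x => x ^ k + t - t') hk' ?_ (by fun_prop) ?_
  · filter_upwards [hopen.mem_nhds hx] with y hy
    exact (e.symm ≫ₕ e').continuousAt hy
  · filter_upwards [hopen.mem_nhds hx] with y hy
    have hy1 : y ∈ e.target := by
      have := hy
      simp only [OpenPartialHomeomorph.trans_source, OpenPartialHomeomorph.symm_source] at this
      exact this.1
    have hy2 : e.symm y ∈ e'.source := by
      have := hy
      simp only [OpenPartialHomeomorph.trans_source, OpenPartialHomeomorph.symm_source] at this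
      exact this.2
    have h1 := h (e.symm y) (e.map_target hy1)
    have h2 := h' (e.symm y) hy2
    rw [e.right_inv hy1] at h1
    have h3 : (e.symm ≫ₕ e') y = e' (e.symm y) := rfl
    rw [h3]
    rw [h1] at h2
    rw [h2]; ring

theorem isManifold (hact : ∀ g : G, Continuous (fun u : U => g • u))
    (H : BrData U D tau C₀ q₀) :
    letI := cspace hact H
    IsManifold 𝓘(ℂ) ω U := by
  letI := cspace hact H
  refine isManifold_of_contDiffOn 𝓘(ℂ) ω U fun e e' he he' => ?_
  have := transition he he'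
  simpa using this

/-- continuous maps whose composition with `D` is holomorphic are holomorphic -/
theorem lift_holo (hact : ∀ g : G, Continuous (fun u : U => g • u))
    (H : BrData U D tau C₀ q₀) {M : Type} [TopologicalSpace M] [ChartedSpace ℂ M]
    (f : M → U) (hf : Continuous f) (hDf : ContMDiff 𝓘(ℂ) 𝓘(ℂ) ω (fun z => D (f z))) :
    letI := cspace hact H
    ContMDiff 𝓘(ℂ) 𝓘(ℂ) ω f := by
  letI := cspace hact H
  intro m
  rw [contMDiffAt_iff]
  refine ⟨hf.continuousAt, ?_⟩
  set c := chartAt ℂ m with hc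
  set e := chartAt ℂ (f m) with he
  obtain ⟨k, t, hk, hkt⟩ : Adm D e := (exists_chart hact H (f m)).choose_spec.2.1
  have hm : m ∈ c.source := mem_chart_source ℂ m
  have hfm : f m ∈ e.source := mem_chart_source ℂ (f m)
  have h1 := (contMDiffAt_iff.1 (hDf m)).2
  simp only [mfld_simps] at h1 ⊢
  rw [contDiffWithinAt_univ] at h1 ⊢
  have h2 : AnalyticAt ℂ ((fun z => D (f z)) ∘ c.symm) (c m) := h1.analyticAt
  refine AnalyticAt.contDiffAt ?_
  -- neighbourhood of `c m`
  have hopen : IsOpen (c.target ∩ c.symm ⁻¹' (f ⁻¹' e.source)) :=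
    c.isOpen_inter_preimage_symm (e.open_source.preimage hf)
  have hmem : c m ∈ c.target ∩ c.symm ⁻¹' (f ⁻¹' e.source) := by
    refine ⟨c.map_source hm, ?_⟩
    rw [mem_preimage, c.left_inv hm]
    exact hfm
  refine root (P := fun x => D (f (c.symm x)) - t) hk ?_ (h2.sub analyticAt_const) ?_
  · filter_upwards [hopen.mem_nhds hmem] with y hy
    have e1 : ContinuousAt c.symm y := c.continuousAt_symm hy.1
    have e2 : ContinuousAt f (c.symm y) := hf.continuousAt
    have e3 : ContinuousAt e (f (c.symm y)) := e.continuousAt hy.2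
    exact ContinuousAt.comp (g := e) e3 (ContinuousAt.comp (g := f) e2 e1)
  · filter_upwards [hopen.mem_nhds hmem] with y hy
    have := hkt _ hy.2
    change e (f (c.symm y)) ^ k = D (f (c.symm y)) - t
    rw [this]; ring

/-- `D` is holomorphic -/
theorem D_holo (hact : ∀ g : G, Continuous (fun u : U => g • u))
    (H : BrData U D tau C₀ q₀) :
    letI := cspace hact H
    ContMDiff 𝓘(ℂ) 𝓘(ℂ) ω D := by
  let _ := cspace hact H
  intro m
  rw [contMDiffAt_iff]
  refine ⟨H.cont.continuousAt, ?_⟩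
  set e := chartAt ℂ m with he
  obtain ⟨k, t, hk, hkt⟩ : Adm D e := (exists_chart hact H m).choose_spec.2.1
  have hm : m ∈ e.source := mem_chart_source ℂ m
  simp only [mfld_simps]
  rw [contDiffWithinAt_univ]
  change ContDiffAt ℂ ω (fun y => D (e.symm y)) (e m)
  have h1 : (fun y => D (e.symm y)) =ᶠ[𝓝 (e m)] fun y => y ^ k + t := by
    filter_upwards [e.open_target.mem_nhds (e.map_source hm)] with y hy
    have := hkt (e.symm y) (e.map_target hy)
    rw [e.right_inv hy] at this
    exact this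
  refine ContDiffAt.congr_of_eventuallyEq ?_ h1
  fun_prop

/-- critical points -/
theorem crit (hact : ∀ g : G, Continuous (fun u : U => g • u))
    (H : BrData U D tau C₀ q₀) :
    letI := cspace hact H
    ∀ f : ℍ → U, ContMDiff 𝓘(ℂ) 𝓘(ℂ) ω f → ∀ z : ℍ, (∃ g, D (f z) = tau g) →
      deriv (fun y : ℂ => D (f (UpperHalfPlane.ofComplex y))) z = 0 := by
  let _ := cspace hact H
  intro f hf z hz
  set e := chartAt ℂ (f z) with he
  obtain ⟨h0, t, ht⟩ := (exists_chart hact H (f z)).choose_spec.2.2 hz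
  change e (f z) = 0 at h0
  change ∀ y ∈ e.source, D y = e y ^ 3 + t at ht
  have h := (contMDiffAt_iff.1 (hf z)).2
  simp only [mfld_simps] at h
  rw [contDiffWithinAt_univ] at h
  change ContDiffAt ℂ ω (fun y => e (f (UpperHalfPlane.ofComplex y))) (z : ℂ) at h
  have hd : DifferentiableAt ℂ (fun y => e (f (UpperHalfPlane.ofComplex y))) (z : ℂ) :=
    h.differentiableAt (by simp)
  have hev : (fun y : ℂ => D (f (UpperHalfPlane.ofComplex y))) =ᶠ[𝓝 (z : ℂ)]
      fun y => (e (f (UpperHalfPlane.ofComplex y))) ^ 3 + t := by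
    have hc : ContinuousAt (fun y : ℂ => f (UpperHalfPlane.ofComplex y)) (z : ℂ) := by
      have h1 : ContinuousAt (UpperHalfPlane.ofComplex) (z : ℂ) :=
        (UpperHalfPlane.contMDiffAt_ofComplex (n := ω) z.im_pos).continuousAt
      have h2 : ContinuousAt f (UpperHalfPlane.ofComplex (z : ℂ)) := hf.continuous.continuousAt
      exact ContinuousAt.comp h2 h1
    have hmem : f (UpperHalfPlane.ofComplex (z : ℂ)) ∈ e.source := by
      rw [UpperHalfPlane.ofComplex_apply]
      exact mem_chart_source ℂ (f z)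
    filter_upwards [hc (e.open_source.mem_nhds hmem)] with y hy
    exact ht _ hy
  rw [hev.deriv_eq]
  have h1 := ((hd.hasDerivAt.pow 3).add_const t).deriv
  have h2 : e (f (UpperHalfPlane.ofComplex (z : ℂ))) = 0 := by
    rw [UpperHalfPlane.ofComplex_apply]; exact h0
  rw [h2] at h1
  refine Eq.trans ?_ (h1.trans (by simp))
  rfl

end charts

end MF

theorem stmt_Mfd : Stmt_Mfd := by
  intro U _ _ _ D tau C₀ q₀ hact _ H
  refine ⟨MF.cspace hact H, MF.isManifold hact H, MF.D_holo hact H, ?_, ?_, MF.crit hact H⟩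
  · intro g
    let _ := MF.cspace hact H
    refine MF.lift_holo hact H (fun u => g • u) (hact g) ?_
    have h : (fun z => D (g • z)) = fun z => D z + tau g := funext fun z => H.equiv g z
    rw [h]
    exact (MF.D_holo hact H).add contMDiff_const
  · intro f hf hDf
    exact MF.lift_holo hact H f hf hDf

end Pool.Agent.CircleShift
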