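import Mathlib
import Pool.Agent.Work.MP_0fc146_gt_h31.Interface

/-!
# MP_0fc146_gt, block Punct, part 1: the fan of triangles at the puncture (helper29)
-/

noncomputable section

open scoped Topology UpperHalfPlane
open Filter Metric Set

namespace Pool.Agent.CircleShift

namespace PU

/-- the octagons around the puncture, `0 ≤ i ≤ 8` -/
def Hn : ℕ → G
  | 0 => 1
  | (i + 1) => Hn i * Tl (Fin.ofNat 8 (3 * i + 7))

theorem Tl_add4 (k : Fin 8) : Tl (k + 4) = (Tl k)⁻¹ := by
  unfold Tl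
  rw [FreeGroup.inv_mk]
  fin_cases k <;> rfl

theorem Hn8 : Hn 8 = chat := by
  simp only [Hn, Tl, FreeGroup.one_eq_mk, FreeGroup.mul_mk, chat]
  rfl

/-- the octagons, `i : ℤ` -/
def H (i : ℤ) : G := chat ^ (i / 8) * Hn (i % 8).toNat

/-- the corners, `i : ℤ` -/
def kk (i : ℤ) : Fin 8 := Fin.ofNat 8 (3 * (i % 8)).toNat

theorem H_form (q : ℤ) (m : ℕ) (hm : m < 8) : H (8 * q + m) = chat ^ q * Hn m := by
  unfold H
  have h1 : (8 * q + (m : ℤ)) / 8 = q := by omega
  have h2 : ((8 * q + (m : ℤ)) % 8).toNat = m := by omega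
  rw [h1, h2]

theorem kk_form (q : ℤ) (m : ℕ) (hm : m < 8) : kk (8 * q + m) = Fin.ofNat 8 (3 * m) := by
  unfold kk
  have h2 : (3 * ((8 * q + (m : ℤ)) % 8)).toNat = 3 * m := by omega
  rw [h2]

theorem exists_form (i : ℤ) : ∃ (q : ℤ) (m : ℕ), m < 8 ∧ i = 8 * q + m :=
  ⟨i / 8, (i % 8).toNat, by omega, by omega⟩

theorem H_succ (i : ℤ) : H (i + 1) = H i * Tl (kk i + 7) := by
  obtain ⟨q, m, hm, rfl⟩ := exists_form i
  rw [H_form q m hm, kk_form q m hm]
  by_cases h7 : m + 1 < 8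
  · have e : (8 * q + (m : ℤ) + 1) = 8 * q + ((m + 1 : ℕ) : ℤ) := by push_cast; ring
    rw [e, H_form q (m + 1) h7, Hn, mul_assoc]
    congr 2
    have : m = 0 ∨ m = 1 ∨ m = 2 ∨ m = 3 ∨ m = 4 ∨ m = 5 ∨ m = 6 := by omega
    rcases this with rfl | rfl | rfl | rfl | rfl | rfl | rfl <;> rfl
  · have h7' : m = 7 := by omega
    subst h7'
    have e : (8 * q + ((7 : ℕ) : ℤ) + 1) = 8 * (q + 1) + ((0 : ℕ) : ℤ) := by push_cast; ring
    rw [e, H_form (q + 1) 0 (by norm_num), zpow_add_one, ← Hn8, mul_assoc, mul_assoc]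
    congr 1

theorem H_add8 (i : ℤ) : H (i + 8) = chat * H i := by
  obtain ⟨q, m, hm, rfl⟩ := exists_form i
  have e : (8 * q + (m : ℤ) + 8) = 8 * (q + 1) + m := by ring
  rw [e, H_form _ m hm, H_form _ m hm, zpow_add_one, ← mul_assoc]
  congr 1
  exact (Commute.zpow_self chat q).eq

theorem H_zero : H 0 = 1 := by
  have := H_form 0 0 (by norm_num)
  simpa [Hn] using this

theorem kk_zero : kk 0 = 0 := by
  have := kk_form 0 0 (by norm_num)
  simp only [mul_zero, Nat.cast_zero, add_zero] at this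
  rw [this]; rfl

theorem kk_succ (i : ℤ) : kk (i + 1) = kk i + 3 := by
  obtain ⟨q, m, hm, rfl⟩ := exists_form i
  rw [kk_form q m hm]
  by_cases h7 : m + 1 < 8
  · have e : (8 * q + (m : ℤ) + 1) = 8 * q + ((m + 1 : ℕ) : ℤ) := by push_cast; ring
    rw [e, kk_form q (m + 1) h7]
    have : m = 0 ∨ m = 1 ∨ m = 2 ∨ m = 3 ∨ m = 4 ∨ m = 5 ∨ m = 6 := by omega
    rcases this with rfl | rfl | rfl | rfl | rfl | rfl | rfl <;> rfl
  · have h7' : m = 7 := by omega
    subst h7'
    have e : (8 * q + ((7 : ℕ) : ℤ) + 1) = 8 * (q + 1) + ((0 : ℕ) : ℤ) := by push_cast; ring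
    rw [e, kk_form (q + 1) 0 (by norm_num)]
    rfl

theorem kk_add8 (i : ℤ) : kk (i + 8) = kk i := by
  obtain ⟨q, m, hm, rfl⟩ := exists_form i
  have e : (8 * q + (m : ℤ) + 8) = 8 * (q + 1) + m := by ring
  rw [e, kk_form _ m hm, kk_form _ m hm]

/-- every corner occurs -/
theorem exists_kk (k : Fin 8) : ∃ i : ℤ, kk i = k := by
  fin_cases k
  · exact ⟨0, by decide⟩
  · exact ⟨3, by decide⟩
  · exact ⟨6, by decide⟩
  · exact ⟨1, by decide⟩
  · exact ⟨4, by decide⟩
  · exact ⟨7, by decide⟩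
  · exact ⟨2, by decide⟩
  · exact ⟨5, by decide⟩

theorem f8 (k : Fin 8) : k + 7 + 1 = k ∧ k + 7 + 4 = k + 3 ∧ k + 7 + 5 = k + 4 ∧ k + 3 + 5 = k ∧
    k + 3 + 4 = k + 7 ∧ k + 3 + 1 = k + 4 := by
  revert k; decide

section oct

variable (W : OctData)

theorem tau_one : W.tau 1 = 0 := by
  have := W.tau_mul 1 1
  rw [mul_one] at this
  exact left_eq_add.1 this

theorem tau_inv (g : G) : W.tau g⁻¹ = -W.tau g := by
  have := W.tau_mul g⁻¹ g
  rw [inv_mul_cancel, tau_one] at this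
  exact eq_neg_of_add_eq_zero_left this.symm

theorem glue' (k : Fin 8) : W.w k = W.w (k + 3) + W.tau (Tl (k + 7)) := by
  have h := W.glue (k + 3)
  rw [(f8 k).2.2.2.1] at h
  have h2 : Tl (k + 3) = (Tl (k + 7))⁻¹ := by
    rw [← Tl_add4, (f8 k).2.1]
  rw [h2, tau_inv] at h
  rw [h]; ring

/-- the corner of the octagon `i` is the puncture -/
theorem corner (i : ℤ) : W.tau (H i) + W.w (kk i) = W.w 0 := by
  have step : ∀ i : ℤ, W.tau (H (i + 1)) + W.w (kk (i + 1)) = W.tau (H i) + W.w (kk i) := by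
    intro i
    rw [H_succ, kk_succ, W.tau_mul, glue' W (kk i)]
    ring
  induction i using Int.induction_on with
  | zero => rw [H_zero, kk_zero, tau_one]; ring
  | succ i ih => rw [step, ih]
  | pred i ih =>
    rw [← ih, ← step (-(i : ℤ) - 1)]
    congr 3 <;> ring

/-- directions -/
def dl (n : ℤ) : ℂ :=
  if n % 2 = 0 then W.w (kk (n / 2) + 1) - W.w (kk (n / 2)) else - W.w (kk (n / 2))

theorem dl_even (i : ℤ) : dl W (2 * i) = W.w (kk i + 1) - W.w (kk i) := by
  unfold dl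
  have h1 : (2 * i) % 2 = 0 := by omega
  have h2 : (2 * i) / 2 = i := by omega
  rw [if_pos h1, h2]

theorem dl_odd (i : ℤ) : dl W (2 * i + 1) = - W.w (kk i) := by
  unfold dl
  have h1 : ¬ (2 * i + 1) % 2 = 0 := by omega
  have h2 : (2 * i + 1) / 2 = i := by omega
  rw [if_neg h1, h2]

theorem dl_add16 (n : ℤ) : dl W (n + 16) = dl W n := by
  obtain ⟨i, hi | hi⟩ : ∃ i : ℤ, n = 2 * i ∨ n = 2 * i + 1 := ⟨n / 2, by omega⟩
  · subst hi
    have e : 2 * i + 16 = 2 * (i + 8) := by ring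
    rw [e, dl_even, dl_even, kk_add8]
  · subst hi
    have e : 2 * i + 1 + 16 = 2 * (i + 8) + 1 := by ring
    rw [e, dl_odd, dl_odd, kk_add8]

/-- the next even direction -/
theorem dl_even' (i : ℤ) : dl W (2 * i + 2) = W.w (kk i + 7) - W.w (kk i) := by
  have e : 2 * i + 2 = 2 * (i + 1) := by ring
  rw [e, dl_even, kk_succ, (f8 _).2.2.2.2.2]
  have h1 := W.glue (kk i + 7)
  rw [(f8 _).2.2.1] at h1
  have h2 := glue' W (kk i)
  rw [h1, h2]; ring

theorem dl_im (n : ℤ) : (dl W n).im ≠ 0 := by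
  obtain ⟨i, hi | hi⟩ : ∃ i : ℤ, n = 2 * i ∨ n = 2 * i + 1 := ⟨n / 2, by omega⟩
  · subst hi
    rw [dl_even, Complex.sub_im]
    exact sub_ne_zero.2 (W.side_ne _)
  · subst hi
    rw [dl_odd, Complex.neg_im]
    exact neg_ne_zero.2 (W.im_ne _)

theorem dl_cross (n : ℤ) : 0 < cross (dl W n) (dl W (n + 1)) := by
  obtain ⟨i, hi | hi⟩ : ∃ i : ℤ, n = 2 * i ∨ n = 2 * i + 1 := ⟨n / 2, by omega⟩
  · subst hi
    rw [dl_even, dl_odd]
    have := W.area (kk i)
    unfold cross at *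
    simp only [Complex.sub_re, Complex.sub_im, Complex.neg_re, Complex.neg_im]
    linarith
  · subst hi
    have e : 2 * i + 1 + 1 = 2 * i + 2 := by ring
    rw [dl_odd, e, dl_even']
    have := W.area (kk i + 7)
    rw [(f8 _).1] at this
    unfold cross at *
    simp only [Complex.sub_re, Complex.sub_im, Complex.neg_re, Complex.neg_im]
    linarith

end oct


/-! ### angles -/

/-- the argument in `(0, 2π]` -/
def Ar (v : ℂ) : ℝ := Complex.arg (-v) + Real.pi

theorem Ar_spec (v : ℂ) : v = ‖v‖ * Complex.exp (Ar v * Complex.I) := by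
  have h := Complex.norm_mul_exp_arg_mul_I (-v)
  rw [norm_neg] at h
  have h2 : Complex.exp ((Ar v : ℂ) * Complex.I) =
      -Complex.exp ((Complex.arg (-v) : ℂ) * Complex.I) := by
    unfold Ar
    push_cast
    rw [add_mul, Complex.exp_add, Complex.exp_pi_mul_I]; ring
  rw [h2, mul_neg, h, neg_neg]

theorem arg_pos {w : ℂ} (h : 0 < w.im) : 0 < Complex.arg w ∧ Complex.arg w < Real.pi := by
  constructor
  · have h1 : 0 ≤ Complex.arg w := Complex.arg_nonneg_iff.2 h.le
    rcases h1.lt_or_eq with h2 | h2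
    · exact h2
    · exact absurd (Complex.arg_eq_zero_iff.1 h2.symm).2 h.ne'
  · have h1 : Complex.arg w ≤ Real.pi := Complex.arg_le_pi w
    rcases h1.lt_or_eq with h2 | h2
    · exact h2
    · exact absurd (Complex.arg_eq_pi_iff.1 h2).2 h.ne'

theorem Ar_up {v : ℂ} (h : 0 < v.im) : 0 < Ar v ∧ Ar v < Real.pi := by
  unfold Ar
  have h1 : Complex.arg (-v) < 0 := Complex.arg_neg_iff.2 (by simpa using h)
  have h2 := Complex.neg_pi_lt_arg (-v)
  constructor <;> linarith

theorem Ar_down {v : ℂ} (h : v.im < 0) : Real.pi < Ar v ∧ Ar v < 2 * Real.pi := by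
  unfold Ar
  have h1 := arg_pos (w := -v) (by simpa using h)
  constructor <;> linarith [h1.1, h1.2]

theorem cross_polar (ρ ρ' α β : ℝ) : cross (ρ * Complex.exp (α * Complex.I))
    (ρ' * Complex.exp (β * Complex.I)) = ρ * ρ' * Real.sin (β - α) := by
  unfold cross
  rw [Real.sin_sub]
  simp only [Complex.exp_mul_I, Complex.mul_re, Complex.mul_im, Complex.add_re, Complex.add_im,
    Complex.ofReal_re, Complex.ofReal_im, ← Complex.ofReal_cos, ← Complex.ofReal_sin,
    Complex.I_re, Complex.I_im]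
  ring

theorem sin_window {t : ℝ} (h1 : -Real.pi < t) (h2 : t < 2 * Real.pi) (h : 0 < Real.sin t) :
    0 < t ∧ t < Real.pi := by
  constructor
  · by_contra h3
    push Not at h3
    have := Real.sin_nonpos_of_nonpos_of_neg_pi_le h3 h1.le
    linarith
  · by_contra h3
    push Not at h3
    have h4 : 0 ≤ Real.sin (t - Real.pi) :=
      Real.sin_nonneg_of_nonneg_of_le_pi (by linarith) (by linarith)
    rw [Real.sin_sub_pi] at h4
    linarith

/-- crossing of the positive real axis -/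
def upx (v v' : ℂ) : ℤ := open scoped Classical in if v.im < 0 ∧ 0 < v'.im then 1 else 0

theorem angle_step {v v' : ℂ} (h1 : v.im ≠ 0) (h2 : v'.im ≠ 0) (h : 0 < cross v v') :
    0 < Ar v' + 2 * Real.pi * upx v v' - Ar v ∧
      Ar v' + 2 * Real.pi * upx v v' - Ar v < Real.pi := by
  have hpi := Real.pi_pos
  have hv : 0 < ‖v‖ := norm_pos_iff.2 fun e => h1 (by rw [e]; rfl)
  have hv' : 0 < ‖v'‖ := norm_pos_iff.2 fun e => h2 (by rw [e]; rfl)
  have hs : 0 < Real.sin (Ar v' - Ar v) := by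
    rw [Ar_spec v, Ar_spec v', cross_polar] at h
    by_contra hc
    push Not at hc
    have := mul_nonneg hv.le hv'.le
    nlinarith
  by_cases hx : v.im < 0 ∧ 0 < v'.im
  · have e : upx v v' = 1 := by unfold upx; rw [if_pos hx]
    rw [e]
    have a1 := Ar_down hx.1
    have a2 := Ar_up hx.2
    have := sin_window (t := Ar v' + 2 * Real.pi * ((1 : ℤ) : ℝ) - Ar v)
      (by push_cast; linarith [a1.1, a1.2, a2.1, a2.2])
      (by push_cast; linarith [a1.1, a1.2, a2.1, a2.2]) (by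
        have e : Ar v' + 2 * Real.pi * ((1 : ℤ) : ℝ) - Ar v = (Ar v' - Ar v) + 2 * Real.pi := by
          push_cast; ring
        rw [e, Real.sin_add_two_pi]; exact hs)
    exact this
  · have e : upx v v' = 0 := by unfold upx; rw [if_neg hx]
    rw [e]
    have e2 : Ar v' + 2 * Real.pi * ((0 : ℤ) : ℝ) - Ar v = Ar v' - Ar v := by push_cast; ring
    rw [e2]
    refine sin_window ?_ ?_ hs
    · rcases lt_or_gt_of_ne h1 with b1 | b1 <;> rcases lt_or_gt_of_ne h2 with b2 | b2
      · linarith [(Ar_down b1).1, (Ar_down b1).2, (Ar_down b2).1, (Ar_down b2).2]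
      · exact absurd ⟨b1, b2⟩ hx
      · linarith [(Ar_up b1).1, (Ar_up b1).2, (Ar_down b2).1, (Ar_down b2).2]
      · linarith [(Ar_up b1).1, (Ar_up b1).2, (Ar_up b2).1, (Ar_up b2).2]
    · rcases lt_or_gt_of_ne h1 with b1 | b1 <;> rcases lt_or_gt_of_ne h2 with b2 | b2
      · linarith [(Ar_down b1).1, (Ar_down b1).2, (Ar_down b2).1, (Ar_down b2).2]
      · exact absurd ⟨b1, b2⟩ hx
      · linarith [(Ar_up b1).1, (Ar_up b1).2, (Ar_down b2).1, (Ar_down b2).2]
      · linarith [(Ar_up b1).1, (Ar_up b1).2, (Ar_up b2).1, (Ar_up b2).2]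

section oct2

variable (W : OctData)

theorem dl_period (n q : ℤ) : dl W (n + 16 * q) = dl W n := by
  induction q using Int.induction_on with
  | zero => simp
  | succ i ih =>
    have e : n + 16 * ((i : ℤ) + 1) = (n + 16 * i) + 16 := by ring
    rw [e, dl_add16, ih]
  | pred i ih =>
    have e : n + 16 * (-(i : ℤ)) = (n + 16 * (-(i : ℤ) - 1)) + 16 := by ring
    rw [e, dl_add16] at ih
    exact ih

/-- crossings -/
def sg (n : ℤ) : ℤ := upx (dl W n) (dl W (n + 1))

theorem sg_period (n q : ℤ) : sg W (n + 16 * q) = sg W n := by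
  unfold sg
  have e : n + 16 * q + 1 = (n + 1) + 16 * q := by ring
  rw [e, dl_period, dl_period]

theorem kk_val (i : Fin 8) : kk (i.val : ℤ) = 3 * i := by
  revert i; decide

theorem sum_sg : ∑ l ∈ Finset.range 16, sg W (l : ℤ) = 1 := by
  classical
  have h := W.turns'
  rw [Finset.card_filter, Finset.card_filter] at h
  have e1 : ∀ i : Fin 8, sg W (2 * (i.val : ℤ)) =
      ((if (W.w (3 * i + 1) - W.w (3 * i)).im < 0 ∧ 0 < (-W.w (3 * i)).im then 1 else 0 : ℕ) : ℤ) := by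
    intro i
    unfold sg upx
    rw [dl_even, dl_odd, kk_val]
    split_ifs <;> rfl
  have e2 : ∀ i : Fin 8, sg W (2 * (i.val : ℤ) + 1) =
      ((if (-W.w (3 * i)).im < 0 ∧ 0 < (W.w (3 * (i + 1) + 1) - W.w (3 * (i + 1))).im
        then 1 else 0 : ℕ) : ℤ) := by
    intro i
    unfold sg upx
    have e : 2 * (i.val : ℤ) + 1 + 1 = 2 * ((i.val : ℤ) + 1) := by ring
    have e' : 3 * (i + 1) = 3 * i + 3 := by revert i; decide
    rw [dl_odd, e, dl_even, kk_succ, kk_val, e']
    split_ifs <;> rfl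
  have h' : (∑ i : Fin 8, sg W (2 * (i.val : ℤ))) + ∑ i : Fin 8, sg W (2 * (i.val : ℤ) + 1) = 1 := by
    rw [Finset.sum_congr rfl fun i _ => e1 i, Finset.sum_congr rfl fun i _ => e2 i]
    exact_mod_cast h
  rw [← h']
  simp only [Finset.sum_range_succ, Finset.sum_range_zero, Fin.sum_univ_eight]
  simp
  ring

/-- cumulative number of crossings -/
def cc (n : ℤ) : ℤ := n / 16 + ∑ l ∈ Finset.range (n % 16).toNat, sg W (l : ℤ)

theorem cc_succ (n : ℤ) : cc W (n + 1) = cc W n + sg W n := by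
  obtain ⟨q, m, hm, rfl⟩ : ∃ (q : ℤ) (m : ℕ), m < 16 ∧ n = m + 16 * q :=
    ⟨n / 16, (n % 16).toNat, by omega, by omega⟩
  rw [sg_period]
  unfold cc
  have h1 : ((m : ℤ) + 16 * q) / 16 = q := by omega
  have h2 : (((m : ℤ) + 16 * q) % 16).toNat = m := by omega
  rw [h1, h2]
  by_cases h : m + 1 < 16
  · have h3 : ((m : ℤ) + 16 * q + 1) / 16 = q := by omega
    have h4 : (((m : ℤ) + 16 * q + 1) % 16).toNat = m + 1 := by omega
    rw [h3, h4, Finset.sum_range_succ]; ring
  · have h5 : m = 15 := by omega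
    subst h5
    have h3 : (((15 : ℕ) : ℤ) + 16 * q + 1) / 16 = q + 1 := by omega
    have h4 : ((((15 : ℕ) : ℤ) + 16 * q + 1) % 16).toNat = 0 := by omega
    have h6 := sum_sg W
    rw [Finset.sum_range_succ] at h6
    rw [h3, h4, Finset.sum_range_zero]
    linarith

theorem cc_add16 (n : ℤ) : cc W (n + 16) = cc W n + 1 := by
  unfold cc
  have h1 : (n + 16) / 16 = n / 16 + 1 := by omega
  have h2 : (n + 16) % 16 = n % 16 := by omega
  rw [h1, h2]; ring

/-- the angles -/
def Th (n : ℤ) : ℝ := Ar (dl W n) + 2 * Real.pi * cc W n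

theorem Th_step (n : ℤ) : 0 < Th W (n + 1) - Th W n ∧ Th W (n + 1) - Th W n < Real.pi := by
  have h := angle_step (dl_im W n) (dl_im W (n + 1)) (dl_cross W n)
  have e : Th W (n + 1) - Th W n =
      Ar (dl W (n + 1)) + 2 * Real.pi * upx (dl W n) (dl W (n + 1)) - Ar (dl W n) := by
    unfold Th
    rw [cc_succ]
    unfold sg
    push_cast; ring
  rw [e]; exact h

theorem Th_add16 (n : ℤ) : Th W (n + 16) = Th W n + 2 * Real.pi := by
  unfold Th
  rw [cc_add16, dl_add16]
  push_cast; ring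

theorem Th_spec (n : ℤ) : dl W n = ‖dl W n‖ * Complex.exp (Th W n * Complex.I) := by
  have h := Ar_spec (dl W n)
  have e : Complex.exp ((Th W n : ℂ) * Complex.I) = Complex.exp ((Ar (dl W n) : ℂ) * Complex.I) := by
    rw [Complex.exp_eq_exp_iff_exists_int]
    refine ⟨cc W n, ?_⟩
    unfold Th
    push_cast; ring
  rw [e]; exact h

theorem Th_strictMono : StrictMono (Th W) := by
  refine strictMono_int_of_lt_succ fun n => ?_
  have := (Th_step W n).1
  linarith

end oct2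


/-! ### the sectors -/

section sectors

variable {U : Type} [TopologicalSpace U] [MulAction G U] (pt : G → Fin 8 → ℝ × ℝ → U)

/-- the point with coordinates `x, y` in the triangle `n` -/
def Q (n : ℤ) (x y : ℝ) : U :=
  if n % 2 = 0 then pt (H (n / 2)) (kk (n / 2)) (1 - x - y, x)
  else pt (H (n / 2)) (kk (n / 2) + 7) (y, 1 - x - y)

theorem Q_even (i : ℤ) (x y : ℝ) : Q pt (2 * i) x y = pt (H i) (kk i) (1 - x - y, x) := by
  unfold Q
  have h1 : (2 * i) % 2 = 0 := by omega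
  have h2 : (2 * i) / 2 = i := by omega
  rw [if_pos h1, h2]

theorem Q_odd (i : ℤ) (x y : ℝ) : Q pt (2 * i + 1) x y = pt (H i) (kk i + 7) (y, 1 - x - y) := by
  unfold Q
  have h1 : ¬ (2 * i + 1) % 2 = 0 := by omega
  have h2 : (2 * i + 1) / 2 = i := by omega
  rw [if_neg h1, h2]

variable {pt}

theorem Q_glue (hT : OctTree U pt) (n : ℤ) {y : ℝ} (h0 : 0 < y) (h1 : y < 1) :
    Q pt n 0 y = Q pt (n + 1) y 0 := by
  obtain ⟨i, hi | hi⟩ : ∃ i : ℤ, n = 2 * i ∨ n = 2 * i + 1 := ⟨n / 2, by omega⟩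
  · subst hi
    rw [Q_even, Q_odd]
    have := hT.spoke (H i) (kk i + 7) (1 - y) (by linarith) (by linarith)
    rw [(f8 _).1] at this
    have e1 : (1 - 0 - y : ℝ) = 1 - y := by ring
    have e2 : (1 - y - 0 : ℝ) = 1 - y := by ring
    rw [e1, e2, this]
  · subst hi
    have e : 2 * i + 1 + 1 = 2 * (i + 1) := by ring
    rw [Q_odd, e, Q_even, H_succ, kk_succ]
    have := hT.side (H i) (kk i + 7) y h0 h1
    rw [(f8 _).2.1] at this
    have e1 : (1 - 0 - y : ℝ) = 1 - y := by ring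
    have e2 : (1 - y - 0 : ℝ) = 1 - y := by ring
    rw [e1, e2, this]

theorem Q_add16 (hT : OctTree U pt) (n : ℤ) (x y : ℝ) : Q pt (n + 16) x y = chat • Q pt n x y := by
  obtain ⟨i, hi | hi⟩ : ∃ i : ℤ, n = 2 * i ∨ n = 2 * i + 1 := ⟨n / 2, by omega⟩
  · subst hi
    have e : 2 * i + 16 = 2 * (i + 8) := by ring
    rw [e, Q_even, Q_even, kk_add8, H_add8, hT.smul]
  · subst hi
    have e : 2 * i + 1 + 16 = 2 * (i + 8) + 1 := by ring
    rw [e, Q_odd, Q_odd, kk_add8, H_add8, hT.smul]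

/-- the region of admissible coordinates -/
def Reg : Set (ℝ × ℝ) := {p | 0 ≤ p.1 ∧ 0 ≤ p.2 ∧ 0 < p.1 + p.2 ∧ p.1 + p.2 < 1}

theorem Q_cont (hT : OctTree U pt) (n : ℤ) : ContinuousOn (fun p : ℝ × ℝ => Q pt n p.1 p.2) Reg := by
  have hpt : ∀ h k, ContinuousOn (pt h k) Tset := fun h k => by
    rw [continuousOn_iff_continuous_domRestrict]
    exact (hT.emb h k).continuous
  obtain ⟨i, hi | hi⟩ : ∃ i : ℤ, n = 2 * i ∨ n = 2 * i + 1 := ⟨n / 2, by omega⟩
  · subst hi
    simp only [Q_even]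
    refine (hpt _ _).comp (f := fun p : ℝ × ℝ => (1 - p.1 - p.2, p.1)) ?_ ?_
    · exact Continuous.continuousOn (by fun_prop)
    · rintro p ⟨h1, h2, h3, h4⟩
      exact ⟨by simp only; linarith, h1, by simp only; linarith, by simp only; intro h; linarith,
        by simp only; intro h; linarith⟩
  · subst hi
    simp only [Q_odd]
    refine (hpt _ _).comp (f := fun p : ℝ × ℝ => (p.2, 1 - p.1 - p.2)) ?_ ?_
    · exact Continuous.continuousOn (by fun_prop)
    · rintro p ⟨h1, h2, h3, h4⟩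
      exact ⟨h2, by simp only; linarith, by simp only; linarith, by simp only; intro h; linarith,
        by simp only; intro h; linarith⟩

theorem Q_dev {W : OctData} {D : U → ℂ} (hD : IsDev pt W D) (n : ℤ) {x y : ℝ}
    (h1 : 0 ≤ x) (h2 : 0 ≤ y) (h3 : 0 < x + y) (h4 : x + y ≤ 1) (h5 : x ≠ 1) (h6 : y ≠ 1) :
    D (Q pt n x y) = W.w 0 + x * dl W n + y * dl W (n + 1) := by
  obtain ⟨i, hi | hi⟩ : ∃ i : ℤ, n = 2 * i ∨ n = 2 * i + 1 := ⟨n / 2, by omega⟩
  · subst hi
    rw [Q_even, hD _ _ _ ⟨by simp only; linarith, h1, by simp only; linarith,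
      by simp only; intro h; linarith, h5⟩, dl_even, dl_odd, ← corner W i]
    push_cast; ring
  · subst hi
    have e : 2 * i + 1 + 1 = 2 * i + 2 := by ring
    rw [Q_odd, hD _ _ _ ⟨h2, by simp only; linarith, by simp only; linarith, h6,
      by simp only; intro h; linarith⟩, dl_odd, e, dl_even', (f8 _).1, ← corner W i]
    push_cast; ring

end sectors


/-! ### coordinates -/

theorem cross_eq (a b : ℂ) : cross a b = ((starRingEnd ℂ) a * b).im := by
  unfold cross
  simp only [Complex.mul_im, Complex.conj_re, Complex.conj_im]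
  ring

theorem abs_cross_le (a b : ℂ) : |cross a b| ≤ ‖a‖ * ‖b‖ := by
  rw [cross_eq]
  refine (Complex.abs_im_le_norm _).trans ?_
  rw [norm_mul, Complex.norm_conj]

section coords

variable (W : OctData)

/-- first coordinate -/
def X (n : ℤ) (v : ℂ) : ℝ := cross v (dl W (n + 1)) / cross (dl W n) (dl W (n + 1))

/-- second coordinate -/
def Y (n : ℤ) (v : ℂ) : ℝ := cross (dl W n) v / cross (dl W n) (dl W (n + 1))

theorem XY_spec (n : ℤ) (v : ℂ) : v = X W n v * dl W n + Y W n v * dl W (n + 1) := by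
  have h := (dl_cross W n).ne'
  unfold X Y
  set c := cross (dl W n) (dl W (n + 1)) with hc
  have h' : (c : ℂ) ≠ 0 := by exact_mod_cast h
  push_cast
  field_simp
  rw [hc]
  unfold cross
  apply Complex.ext
  · simp only [Complex.mul_re, Complex.add_re, Complex.ofReal_re, Complex.ofReal_im,
      Complex.add_im, Complex.mul_im]
    ring
  · simp only [Complex.mul_re, Complex.add_re, Complex.ofReal_re, Complex.ofReal_im,
      Complex.add_im, Complex.mul_im]
    ring

theorem XY_unique (n : ℤ) (x y : ℝ) :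
    X W n (x * dl W n + y * dl W (n + 1)) = x ∧ Y W n (x * dl W n + y * dl W (n + 1)) = y := by
  have h := (dl_cross W n).ne'
  unfold X Y
  constructor
  · rw [div_eq_iff h]
    unfold cross
    simp only [Complex.mul_re, Complex.add_re, Complex.ofReal_re, Complex.ofReal_im,
      Complex.add_im, Complex.mul_im]
    ring
  · rw [div_eq_iff h]
    unfold cross
    simp only [Complex.mul_re, Complex.add_re, Complex.ofReal_re, Complex.ofReal_im,
      Complex.add_im, Complex.mul_im]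
    ring

theorem dl_pos (n : ℤ) : 0 < ‖dl W n‖ := norm_pos_iff.2 fun e => dl_im W n (by rw [e]; rfl)

theorem XY_nonneg (n : ℤ) {ρ φ : ℝ} (hρ : 0 ≤ ρ) (h1 : Th W n ≤ φ) (h2 : φ ≤ Th W (n + 1)) :
    0 ≤ X W n (ρ * Complex.exp (φ * Complex.I)) ∧ 0 ≤ Y W n (ρ * Complex.exp (φ * Complex.I)) := by
  have hst := Th_step W n
  constructor
  · unfold X
    refine div_nonneg ?_ (dl_cross W n).le
    rw [Th_spec W (n + 1), cross_polar]
    refine mul_nonneg (mul_nonneg hρ (norm_nonneg _)) ?_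
    exact Real.sin_nonneg_of_nonneg_of_le_pi (by linarith) (by linarith [hst.2])
  · unfold Y
    refine div_nonneg ?_ (dl_cross W n).le
    rw [Th_spec W n, cross_polar]
    refine mul_nonneg (mul_nonneg (norm_nonneg _) hρ) ?_
    exact Real.sin_nonneg_of_nonneg_of_le_pi (by linarith) (by linarith [hst.2])

/-- local bound -/
def Mn (n : ℤ) : ℝ := (‖dl W n‖ + ‖dl W (n + 1)‖) / cross (dl W n) (dl W (n + 1))

theorem Mn_nonneg (n : ℤ) : 0 ≤ Mn W n := by
  unfold Mn
  have := (dl_cross W n).le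
  positivity

/-- global bound -/
def MM : ℝ := ∑ l ∈ Finset.range 16, Mn W (l : ℤ)

theorem MM_nonneg : 0 ≤ MM W := Finset.sum_nonneg fun _ _ => Mn_nonneg W _

theorem Mn_le (n : ℤ) : Mn W n ≤ MM W := by
  obtain ⟨q, m, hm, rfl⟩ : ∃ (q : ℤ) (m : ℕ), m < 16 ∧ n = m + 16 * q :=
    ⟨n / 16, (n % 16).toNat, by omega, by omega⟩
  have e : Mn W (m + 16 * q) = Mn W m := by
    unfold Mn
    have e1 : (m : ℤ) + 16 * q + 1 = (m + 1) + 16 * q := by ring
    rw [e1, dl_period, dl_period]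
  rw [e]
  exact Finset.single_le_sum (f := fun l : ℕ => Mn W (l : ℤ)) (fun l _ => Mn_nonneg W _)
    (Finset.mem_range.2 hm)

theorem XY_le (n : ℤ) (v : ℂ) : X W n v + Y W n v ≤ ‖v‖ * MM W := by
  have h := dl_cross W n
  have h1 : X W n v + Y W n v ≤ ‖v‖ * Mn W n := by
    unfold X Y Mn
    rw [← add_div, mul_div_assoc']
    refine div_le_div_of_nonneg_right ?_ h.le
    have a1 := (le_abs_self _).trans (abs_cross_le v (dl W (n + 1)))
    have a2 := (le_abs_self _).trans (abs_cross_le (dl W n) v)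
    nlinarith
  exact h1.trans (mul_le_mul_of_nonneg_left (Mn_le W n) (norm_nonneg _))

theorem XY_reg (n : ℤ) {ρ φ : ℝ} (hρ : 0 < ρ) (hρ1 : ρ * MM W < 1) (h1 : Th W n ≤ φ)
    (h2 : φ ≤ Th W (n + 1)) : (X W n (ρ * Complex.exp (φ * Complex.I)),
      Y W n (ρ * Complex.exp (φ * Complex.I))) ∈ Reg := by
  have h3 := XY_nonneg W n hρ.le h1 h2
  have hn : ‖(ρ * Complex.exp (φ * Complex.I) : ℂ)‖ = ρ := by
    rw [norm_mul, Complex.norm_exp_ofReal_mul_I, mul_one, Complex.norm_real, Real.norm_eq_abs,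
      abs_of_pos hρ]
  refine ⟨h3.1, h3.2, ?_, ?_⟩
  · simp only
    by_contra hc
    push Not at hc
    have hx : X W n (ρ * Complex.exp (φ * Complex.I)) = 0 := by linarith [h3.1, h3.2]
    have hy : Y W n (ρ * Complex.exp (φ * Complex.I)) = 0 := by linarith [h3.1, h3.2]
    have := XY_spec W n (ρ * Complex.exp (φ * Complex.I))
    rw [hx, hy] at this
    simp only [Complex.ofReal_zero, zero_mul, add_zero] at this
    rw [this, norm_zero] at hn
    linarith
  · simp only
    have := XY_le W n (ρ * Complex.exp (φ * Complex.I))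
    rw [hn] at this
    linarith

/-- overlap of two sectors -/
theorem overlap {n n' : ℤ} {φ : ℝ} (h1 : Th W n ≤ φ) (h2 : φ ≤ Th W (n + 1))
    (h1' : Th W n' ≤ φ) (h2' : φ ≤ Th W (n' + 1)) (hlt : n < n') :
    n' = n + 1 ∧ φ = Th W (n + 1) := by
  have hm := Th_strictMono W
  have h3 : Th W n' ≤ Th W (n + 1) := h1'.trans h2
  have h4 : n' ≤ n + 1 := hm.le_iff_le.1 h3
  have h5 : n' = n + 1 := by omega
  subst h5
  exact ⟨rfl, le_antisymm h2 h1'⟩

theorem exists_sector (x : ℝ) : ∃ n, Th W n ≤ x ∧ x < Th W (n + 1) := by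
  classical
  have hper : ∀ q : ℤ, Th W (16 * q) = Th W 0 + 2 * Real.pi * q := by
    intro q
    induction q using Int.induction_on with
    | zero => simp
    | succ i ih =>
      have e : 16 * ((i : ℤ) + 1) = 16 * i + 16 := by ring
      rw [e, Th_add16, ih]; push_cast; ring
    | pred i ih =>
      have e : 16 * (-(i : ℤ)) = 16 * (-(i : ℤ) - 1) + 16 := by ring
      rw [e, Th_add16] at ih
      push_cast at ih ⊢; linarith
  have hpi : 0 < 2 * Real.pi := by positivity
  set q := ⌊(x - Th W 0) / (2 * Real.pi)⌋ with hq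
  have hq1 : (q : ℝ) ≤ (x - Th W 0) / (2 * Real.pi) := Int.floor_le _
  have hq2 : (x - Th W 0) / (2 * Real.pi) < q + 1 := Int.lt_floor_add_one _
  rw [le_div_iff₀ hpi] at hq1
  rw [div_lt_iff₀ hpi] at hq2
  have a1 : Th W (16 * q) ≤ x := by rw [hper]; linarith
  have a2 : x < Th W (16 * q + (16 : ℕ)) := by
    have e : 16 * q + ((16 : ℕ) : ℤ) = 16 * (q + 1) := by push_cast; ring
    rw [e, hper]; push_cast; linarith
  have hex : ∃ m : ℕ, x < Th W (16 * q + m) := ⟨16, a2⟩
  have hm := Nat.find_spec hex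
  have hmin := fun k hk => Nat.find_min hex (m := k) hk
  generalize Nat.find hex = m at hm hmin
  have hm0 : m ≠ 0 := by
    intro h
    rw [h] at hm
    simp only [Nat.cast_zero, add_zero] at hm
    linarith
  obtain ⟨k, rfl⟩ : ∃ k, m = k + 1 := ⟨m - 1, by omega⟩
  refine ⟨16 * q + k, ?_, ?_⟩
  · have := hmin k (by omega)
    push Not at this
    exact this
  · have e : 16 * q + ((k + 1 : ℕ) : ℤ) = 16 * q + k + 1 := by push_cast; ring
    rw [← e]; exact hm

theorem locfin : LocallyFinite fun n : ℤ => Set.Icc (Th W n) (Th W (n + 1)) := by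
  intro x
  obtain ⟨a, ha, _⟩ := exists_sector W (x - 1)
  obtain ⟨b, _, hb⟩ := exists_sector W (x + 1)
  refine ⟨Set.Ioo (x - 1) (x + 1), Ioo_mem_nhds (by linarith) (by linarith), ?_⟩
  refine (Set.finite_Icc (a - 1) (b + 1)).subset ?_
  rintro n ⟨y, ⟨h1, h2⟩, h3, h4⟩
  have hm := Th_strictMono W
  have h5 : Th W a < Th W (n + 1) := by linarith
  have h6 : Th W n < Th W (b + 1) := by linarith
  have h7 := hm.lt_iff_lt.1 h5
  have h8 := hm.lt_iff_lt.1 h6
  constructor <;> omega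

end coords

end PU

end Pool.Agent.CircleShift
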