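import Mathlib
import Pool.Agent.Work.MP_0fc146_gt_helper29.Fan

/-!
# MP_0fc146_gt, block Punct (helper29)
-/

noncomputable section

open scoped Topology UpperHalfPlane
open Filter Metric Set

namespace Pool.Agent.CircleShift

namespace PU

section jmap

variable {U : Type} [TopologicalSpace U] [MulAction G U] (pt : G → Fin 8 → ℝ × ℝ → U)
  (W : OctData) (r : ℝ)

/-- modulus -/
def rho (z : ℍ) : ℝ := r * Real.exp (-(2 * Real.pi * z.im))

/-- angle -/
def phi (z : ℍ) : ℝ := 2 * Real.pi * z.re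

/-- the developed displacement -/
def vv (z : ℍ) : ℂ := rho r z * Complex.exp (phi z * Complex.I)

theorem vv_eq (z : ℍ) : vv r z = r * Complex.exp (2 * Real.pi * Complex.I * z) := by
  unfold vv rho phi
  have e : (2 * Real.pi * Complex.I * z : ℂ) = ((-(2 * Real.pi * z.im) : ℝ) : ℂ) +
      ((2 * Real.pi * z.re : ℝ) : ℂ) * Complex.I := by
    have hz : (z : ℂ) = z.re + z.im * Complex.I := by
      apply Complex.ext <;> simp
    rw [hz]
    push_cast
    linear_combination (2 * Real.pi * z.im : ℂ) * Complex.I_sq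
  rw [e, Complex.exp_add]
  push_cast
  ring

/-- the sector of a point -/
def sec (z : ℍ) : ℤ := (exists_sector W (phi z)).choose

theorem sec_spec (z : ℍ) : Th W (sec W z) ≤ phi z ∧ phi z < Th W (sec W z + 1) :=
  (exists_sector W (phi z)).choose_spec

/-- the value in a given sector -/
def jn (n : ℤ) (z : ℍ) : U := Q pt n (X W n (vv r z)) (Y W n (vv r z))

/-- the map `j` -/
def jj (z : ℍ) : U := jn pt W r (sec W z) z

variable {pt W r}

theorem rho_pos (hr : 0 < r) (z : ℍ) : 0 < rho r z := by unfold rho; positivity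

theorem rho_lt (hr : 0 < r) (z : ℍ) : rho r z < r := by
  unfold rho
  have h : Real.exp (-(2 * Real.pi * z.im)) < 1 := by
    rw [Real.exp_lt_one_iff]
    have := z.im_pos
    have := Real.pi_pos
    have : 0 < 2 * Real.pi * z.im := by positivity
    linarith
  nlinarith

theorem rho_MM (hr : 0 < r) (hr1 : r * MM W < 1) (z : ℍ) : rho r z * MM W < 1 := by
  refine lt_of_le_of_lt ?_ hr1
  exact mul_le_mul_of_nonneg_right (rho_lt hr z).le (MM_nonneg W)

theorem jn_agree (hT : OctTree U pt) (hr : 0 < r) (hr1 : r * MM W < 1) {n n' : ℤ} {z : ℍ}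
    (h1 : Th W n ≤ phi z) (h2 : phi z ≤ Th W (n + 1)) (h1' : Th W n' ≤ phi z)
    (h2' : phi z ≤ Th W (n' + 1)) : jn pt W r n z = jn pt W r n' z := by
  have key : ∀ n n' : ℤ, Th W n ≤ phi z → phi z ≤ Th W (n + 1) → Th W n' ≤ phi z →
      phi z ≤ Th W (n' + 1) → n < n' → jn pt W r n z = jn pt W r n' z := by
    intro n n' h1 h2 h1' h2' hlt
    obtain ⟨rfl, hφ⟩ := overlap W h1 h2 h1' h2' hlt
    have hd := dl_pos W (n + 1)
    set t : ℝ := rho r z / ‖dl W (n + 1)‖ with ht
    have ht0 : 0 < t := div_pos (rho_pos hr z) hd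
    have hv : vv r z = t * dl W (n + 1) := by
      unfold vv
      rw [hφ]
      conv_rhs => rw [Th_spec W (n + 1)]
      rw [ht]
      have : (‖dl W (n + 1)‖ : ℂ) ≠ 0 := by exact_mod_cast hd.ne'
      push_cast
      field_simp
    have a1 := XY_unique W n 0 t
    have a2 := XY_unique W (n + 1) t 0
    have e1 : ((0 : ℝ) : ℂ) * dl W n + t * dl W (n + 1) = vv r z := by rw [hv]; simp
    have e2 : (t : ℂ) * dl W (n + 1) + ((0 : ℝ) : ℂ) * dl W (n + 1 + 1) = vv r z := by
      rw [hv]; simp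
    rw [e1] at a1
    rw [e2] at a2
    have hreg := XY_reg W n (rho_pos hr z) (rho_MM hr hr1 z) h1 h2
    change (X W n (vv r z), Y W n (vv r z)) ∈ Reg at hreg
    rw [a1.1, a1.2] at hreg
    have ht1 : t < 1 := by
      have := hreg.2.2.2
      simp only [zero_add] at this
      exact this
    unfold jn
    rw [a1.1, a1.2, a2.1, a2.2]
    exact Q_glue hT n ht0 ht1
  rcases lt_trichotomy n n' with h | h | h
  · exact key n n' h1 h2 h1' h2' h
  · rw [h]
  · exact (key n' n h1' h2' h1 h2 h).symm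

theorem jj_eq (hT : OctTree U pt) (hr : 0 < r) (hr1 : r * MM W < 1) {n : ℤ} {z : ℍ}
    (h1 : Th W n ≤ phi z) (h2 : phi z ≤ Th W (n + 1)) : jj pt W r z = jn pt W r n z :=
  jn_agree hT hr hr1 (sec_spec W z).1 (sec_spec W z).2.le h1 h2

theorem jj_cont (hT : OctTree U pt) (hr : 0 < r) (hr1 : r * MM W < 1) :
    Continuous (jj pt W r) := by
  have hphi : Continuous (phi : ℍ → ℝ) := by
    unfold phi
    exact continuous_const.mul UpperHalfPlane.continuous_re
  have hvv : Continuous (vv r) := by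
    unfold vv rho
    have := UpperHalfPlane.continuous_im
    have := hphi
    fun_prop
  refine LocallyFinite.continuous (f := fun n : ℤ => phi ⁻¹' Set.Icc (Th W n) (Th W (n + 1)))
    ((locfin W).preimage_continuous hphi) ?_ (fun n => isClosed_Icc.preimage hphi) ?_
  · refine Set.eq_univ_of_forall fun z => Set.mem_iUnion.2 ⟨sec W z, ?_⟩
    exact ⟨(sec_spec W z).1, (sec_spec W z).2.le⟩
  · intro n
    have h1 : ContinuousOn (jn pt W r n) (phi ⁻¹' Set.Icc (Th W n) (Th W (n + 1))) := by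
      have hre : Continuous fun z => (vv r z).re := Complex.continuous_re.comp hvv
      have him : Continuous fun z => (vv r z).im := Complex.continuous_im.comp hvv
      have hX : Continuous (fun z => X W n (vv r z)) := by
        unfold X cross
        exact ((hre.mul continuous_const).sub (him.mul continuous_const)).div_const _
      have hY : Continuous (fun z => Y W n (vv r z)) := by
        unfold Y cross
        exact ((continuous_const.mul him).sub (continuous_const.mul hre)).div_const _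
      refine (Q_cont hT n).comp (f := fun z => (X W n (vv r z), Y W n (vv r z)))
        (hX.prodMk hY).continuousOn ?_
      rintro z ⟨h1, h2⟩
      exact XY_reg W n (rho_pos hr z) (rho_MM hr hr1 z) h1 h2
    exact h1.congr fun z hz => jj_eq hT hr hr1 hz.1 hz.2

theorem jj_dev (hr : 0 < r) (hr1 : r * MM W < 1) {D : U → ℂ}
    (hD : IsDev pt W D) (z : ℍ) : D (jj pt W r z) = W.w 0 + vv r z := by
  have hreg := XY_reg W (sec W z) (rho_pos hr z) (rho_MM hr hr1 z) (sec_spec W z).1
    (sec_spec W z).2.le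
  change (X W (sec W z) (vv r z), Y W (sec W z) (vv r z)) ∈ Reg at hreg
  obtain ⟨h1, h2, h3, h4⟩ := hreg
  simp only at h1 h2 h3 h4
  unfold jj jn
  rw [Q_dev hD _ h1 h2 h3 h4.le (by linarith) (by linarith)]
  conv_rhs => rw [XY_spec W (sec W z) (vv r z)]
  ring

theorem jj_shift (hT : OctTree U pt) (hr : 0 < r) (hr1 : r * MM W < 1) (z : ℍ) :
    jj pt W r ((1 : ℝ) +ᵥ z) = chat • jj pt W r z := by
  have hphi : phi ((1 : ℝ) +ᵥ z) = phi z + 2 * Real.pi := by
    unfold phi
    rw [UpperHalfPlane.vadd_re]; ring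
  have hvv : vv r ((1 : ℝ) +ᵥ z) = vv r z := by
    rw [vv_eq, vv_eq]
    congr 1
    rw [UpperHalfPlane.coe_vadd]
    have e : (2 * Real.pi * Complex.I * ((1 : ℝ) + (z : ℂ)) : ℂ) =
        2 * Real.pi * Complex.I * z + 2 * Real.pi * Complex.I := by push_cast; ring
    rw [e, Complex.exp_add, Complex.exp_two_pi_mul_I, mul_one]
  have h1 := (sec_spec W z).1
  have h2 := (sec_spec W z).2.le
  have h1' : Th W (sec W z + 16) ≤ phi ((1 : ℝ) +ᵥ z) := by
    rw [hphi, Th_add16]; linarith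
  have h2' : phi ((1 : ℝ) +ᵥ z) ≤ Th W (sec W z + 16 + 1) := by
    have e : sec W z + 16 + 1 = (sec W z + 1) + 16 := by ring
    rw [hphi, e, Th_add16]; linarith
  rw [jj_eq hT hr hr1 h1' h2', jj_eq hT hr hr1 h1 h2]
  unfold jn
  rw [hvv, Q_add16 hT]
  have e1 : X W (sec W z + 16) (vv r z) = X W (sec W z) (vv r z) := by
    unfold X
    have e : sec W z + 16 + 1 = (sec W z + 1) + 16 := by ring
    rw [e, dl_add16, dl_add16]
  have e2 : Y W (sec W z + 16) (vv r z) = Y W (sec W z) (vv r z) := by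
    unfold Y
    have e : sec W z + 16 + 1 = (sec W z + 1) + 16 := by ring
    rw [e, dl_add16, dl_add16]
  rw [e1, e2]

/-- angle of a point of a sector -/
theorem exists_angle (n : ℤ) {x y : ℝ} (hx : 0 ≤ x) (hy : 0 ≤ y) (hxy : 0 < x + y) :
    ∃ φ, Th W n ≤ φ ∧ φ ≤ Th W (n + 1) ∧ (x * dl W n + y * dl W (n + 1) : ℂ) =
      ‖(x * dl W n + y * dl W (n + 1) : ℂ)‖ * Complex.exp (φ * Complex.I) := by
  set v : ℂ := x * dl W n + y * dl W (n + 1) with hv
  have hst := Th_step W n
  have hpi := Real.pi_pos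
  have hv0 : v ≠ 0 := by
    intro h0
    have h1 := XY_unique W n x y
    rw [← hv, h0] at h1
    have h2 := XY_unique W n 0 0
    simp only [Complex.ofReal_zero, zero_mul, add_zero] at h2
    rw [h1.1, h1.2] at h2
    linarith [h2.1, h2.2]
  have hvn : 0 < ‖v‖ := norm_pos_iff.2 hv0
  set a : ℝ := Complex.arg (v / Complex.exp (Th W n * Complex.I)) with ha
  have hpol : v = ‖v‖ * Complex.exp ((Th W n + a : ℝ) * Complex.I) := by
    have h1 := Complex.norm_mul_exp_arg_mul_I (v / Complex.exp (Th W n * Complex.I))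
    rw [norm_div, Complex.norm_exp_ofReal_mul_I, div_one, ← ha] at h1
    have h2 := Complex.exp_ne_zero ((Th W n : ℂ) * Complex.I)
    rw [eq_div_iff h2] at h1
    push_cast
    rw [add_mul, Complex.exp_add]
    conv_lhs => rw [← h1]
    ring
  have hs1 : 0 ≤ Real.sin a := by
    have h1 : cross (dl W n) v = y * cross (dl W n) (dl W (n + 1)) := by
      rw [hv]; unfold cross
      simp only [Complex.mul_re, Complex.add_re, Complex.ofReal_re, Complex.ofReal_im,
        Complex.add_im, Complex.mul_im]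
      ring
    have h2 : cross (dl W n) v = ‖dl W n‖ * ‖v‖ * Real.sin a := by
      conv_lhs => rw [hpol, Th_spec W n, cross_polar]
      congr 2; ring
    have h3 : 0 ≤ ‖dl W n‖ * ‖v‖ * Real.sin a := by
      rw [← h2, h1]; exact mul_nonneg hy (dl_cross W n).le
    have h4 : 0 < ‖dl W n‖ * ‖v‖ := mul_pos (dl_pos W n) hvn
    exact nonneg_of_mul_nonneg_right h3 h4
  have hs2 : 0 ≤ Real.sin (Th W (n + 1) - (Th W n + a)) := by
    have h1 : cross v (dl W (n + 1)) = x * cross (dl W n) (dl W (n + 1)) := by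
      rw [hv]; unfold cross
      simp only [Complex.mul_re, Complex.add_re, Complex.ofReal_re, Complex.ofReal_im,
        Complex.add_im, Complex.mul_im]
      ring
    have h2 : cross v (dl W (n + 1)) =
        ‖v‖ * ‖dl W (n + 1)‖ * Real.sin (Th W (n + 1) - (Th W n + a)) := by
      conv_lhs => rw [hpol, Th_spec W (n + 1), cross_polar]
    have h3 : 0 ≤ ‖v‖ * ‖dl W (n + 1)‖ * Real.sin (Th W (n + 1) - (Th W n + a)) := by
      rw [← h2, h1]; exact mul_nonneg hx (dl_cross W n).le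
    have h4 : 0 < ‖v‖ * ‖dl W (n + 1)‖ := mul_pos hvn (dl_pos W (n + 1))
    exact nonneg_of_mul_nonneg_right h3 h4
  have ha1 : -Real.pi < a := Complex.neg_pi_lt_arg _
  have ha2 : a ≤ Real.pi := Complex.arg_le_pi _
  have ha0 : 0 ≤ a := by
    by_contra hc
    push Not at hc
    have := Real.sin_neg_of_neg_of_neg_pi_lt hc ha1
    linarith
  refine ⟨Th W n + a, by linarith, ?_, hpol⟩
  by_contra hc
  push Not at hc
  have := Real.sin_neg_of_neg_of_neg_pi_lt
    (show Th W (n + 1) - (Th W n + a) < 0 by linarith) (by linarith [hst.1])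
  linarith

/-- surjectivity of `j` on the small sectors -/
theorem exists_jj (hT : OctTree U pt) (hr : 0 < r) (hr1 : r * MM W < 1) (n : ℤ) {x y : ℝ}
    (hx : 0 ≤ x) (hy : 0 ≤ y) (hxy : 0 < x + y)
    (hn : ‖(x * dl W n + y * dl W (n + 1) : ℂ)‖ < r) : ∃ z : ℍ, Q pt n x y = jj pt W r z := by
  obtain ⟨φ, h1, h2, h3⟩ := exists_angle (W := W) n hx hy hxy
  set v : ℂ := x * dl W n + y * dl W (n + 1) with hv
  have hvn : 0 < ‖v‖ := by
    rw [norm_pos_iff]
    intro h0
    have k1 := XY_unique W n x y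
    rw [← hv, h0] at k1
    have k2 := XY_unique W n 0 0
    simp only [Complex.ofReal_zero, zero_mul, add_zero] at k2
    rw [k1.1, k1.2] at k2
    linarith [k2.1, k2.2]
  have hpi := Real.pi_pos
  have him : 0 < Real.log (r / ‖v‖) / (2 * Real.pi) := by
    refine div_pos (Real.log_pos ?_) (by positivity)
    rw [lt_div_iff₀ hvn]; linarith
  let z : ℍ := ⟨⟨φ / (2 * Real.pi), Real.log (r / ‖v‖) / (2 * Real.pi)⟩, him⟩
  have hz1 : phi z = φ := by
    change 2 * Real.pi * (φ / (2 * Real.pi)) = φ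
    field_simp
  have hz2 : rho r z = ‖v‖ := by
    change r * Real.exp (-(2 * Real.pi * (Real.log (r / ‖v‖) / (2 * Real.pi)))) = ‖v‖
    have e : 2 * Real.pi * (Real.log (r / ‖v‖) / (2 * Real.pi)) = Real.log (r / ‖v‖) := by
      field_simp
    rw [e, Real.exp_neg, Real.exp_log (by positivity)]
    field_simp
  have hz3 : vv r z = v := by
    unfold vv
    rw [hz1, hz2]; exact h3.symm
  refine ⟨z, ?_⟩
  rw [jj_eq hT hr hr1 (n := n) (by rw [hz1]; exact h1) (by rw [hz1]; exact h2)]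
  unfold jn
  rw [hz3, hv, (XY_unique W n x y).1, (XY_unique W n x y).2]

end jmap


section final

/-- distance of the puncture from the lattice -/
theorem dist_lattice (W : OctData) : ∃ ρ₀ > 0, ∀ g, ρ₀ ≤ ‖W.w 0 - W.tau g‖ := by
  obtain ⟨δ, hδ, hdisc⟩ := W.disc
  by_cases h : ∃ g, ‖W.w 0 - W.tau g‖ < δ / 2
  · obtain ⟨g₀, hg₀⟩ := h
    have h0 : 0 < ‖W.w 0 - W.tau g₀‖ := norm_pos_iff.2 (sub_ne_zero.2 (W.puncture g₀))
    refine ⟨‖W.w 0 - W.tau g₀‖, h0, fun g => ?_⟩
    by_cases hg : W.tau (g * g₀⁻¹) = 0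
    · rw [W.tau_mul, tau_inv] at hg
      have : W.tau g = W.tau g₀ := by linear_combination hg
      rw [this]
    · have h1 := hdisc _ hg
      rw [W.tau_mul, tau_inv] at h1
      have h2 : ‖W.tau g + -W.tau g₀‖ ≤ ‖W.w 0 - W.tau g₀‖ + ‖W.w 0 - W.tau g‖ := by
        have e : W.tau g + -W.tau g₀ = (W.w 0 - W.tau g₀) - (W.w 0 - W.tau g) := by ring
        rw [e]; exact norm_sub_le _ _
      linarith
  · push Not at h
    exact ⟨δ / 2, by positivity, h⟩

/-- sections of uniform size over a compact set -/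
theorem uniform_section {U : Type} [TopologicalSpace U] {D : U → ℂ} (hD : Continuous D)
    {K : Set U} (hK : IsCompact K)
    (hloc : ∀ u ∈ K, ∃ e : OpenPartialHomeomorph U ℂ, u ∈ e.source ∧ ∀ y ∈ e.source, e y = D y) :
    ∃ ρ > 0, ∀ u ∈ K, ∃ s : ℂ → U, ContinuousOn s (ball (D u) ρ) ∧
      (∀ y ∈ ball (D u) ρ, D (s y) = y) ∧ s (D u) = u := by
  classical
  have key : ∀ u ∈ K, ∃ V ∈ 𝓝 u, ∃ ρ > 0, ∀ u' ∈ V, ∃ s : ℂ → U,
      ContinuousOn s (ball (D u') ρ) ∧ (∀ y ∈ ball (D u') ρ, D (s y) = y) ∧ s (D u') = u' := by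
    intro u hu
    obtain ⟨e, he1, he2⟩ := hloc u hu
    have h1 : D u ∈ e.target := by rw [← he2 u he1]; exact e.map_source he1
    obtain ⟨ε, hε, hball⟩ := Metric.isOpen_iff.1 e.open_target (D u) h1
    refine ⟨e.source ∩ D ⁻¹' ball (D u) (ε / 2), ?_, ε / 2, by positivity, ?_⟩
    · exact inter_mem (e.open_source.mem_nhds he1)
        (hD.continuousAt.preimage_mem_nhds (ball_mem_nhds _ (by positivity)))
    · rintro u' ⟨hu1, hu2⟩
      have hsub : ball (D u') (ε / 2) ⊆ e.target := by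
        refine (ball_subset_ball' ?_).trans hball
        have := mem_ball.1 hu2
        linarith
      refine ⟨e.symm, e.continuousOn_symm.mono hsub, fun y hy => ?_, ?_⟩
      · rw [← he2 _ (e.map_target (hsub hy)), e.right_inv (hsub hy)]
      · rw [← he2 u' hu1, e.left_inv hu1]
  choose! V hV ρ hρ hs using key
  obtain ⟨t, htK, hcov⟩ := hK.elim_nhds_subcover V hV
  rcases t.eq_empty_or_nonempty with h | h
  · refine ⟨1, one_pos, fun u hu => ?_⟩
    have := hcov hu
    rw [h] at this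
    simp at this
  · obtain ⟨u₀, hu₀, hmin⟩ := t.exists_min_image ρ h
    refine ⟨ρ u₀, hρ u₀ (htK u₀ hu₀), fun u hu => ?_⟩
    obtain ⟨x, hx⟩ := Set.mem_iUnion.1 (hcov hu)
    obtain ⟨hxt, hux⟩ := Set.mem_iUnion.1 hx
    obtain ⟨s, h1, h2, h3⟩ := hs x (htK x hxt) u hux
    have hsub : ball (D u) (ρ u₀) ⊆ ball (D u) (ρ x) := ball_subset_ball (hmin x hxt)
    exact ⟨s, h1.mono hsub, fun y hy => h2 y (hsub hy), h3⟩

end final

theorem f8' (k : Fin 8) : k + 1 + 7 = k := by revert k; decide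

end PU

theorem stmt_Punct (hAct : Stmt_Act) (hDC : Stmt_DevCont) (hLoc : Stmt_Loc) : Stmt_Punct := by
  classical
  intro U _ _ _ pt hT W D hD
  have hact := (hAct U pt hT).1
  obtain ⟨hDc, hDe⟩ := hDC U pt hT W D hD
  have hloc := hLoc U pt hT W D hD
  obtain ⟨δ, hδ, hdisc⟩ := W.disc
  obtain ⟨ρ₀, hρ₀, hlat⟩ := PU.dist_lattice W
  set η : ℝ := δ / 2 with hη
  have hη0 : 0 < η := by positivity
  -- the compact set
  let A : Fin 8 → Set (ℝ × ℝ) := fun k => {d | d ∈ Tset ∧ η ≤ ‖(d.1 * W.w k + d.2 * W.w (k + 1) : ℂ) - W.w k‖ ∧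
    η ≤ ‖(d.1 * W.w k + d.2 * W.w (k + 1) : ℂ) - W.w (k + 1)‖ ∧
    ρ₀ / 2 ≤ ‖(d.1 * W.w k + d.2 * W.w (k + 1) : ℂ)‖}
  have hA : ∀ k, IsCompact (A k) := by
    intro k
    have hcl : A k = {d | 0 ≤ d.1 ∧ 0 ≤ d.2 ∧ d.1 + d.2 ≤ 1 ∧
        η ≤ ‖(d.1 * W.w k + d.2 * W.w (k + 1) : ℂ) - W.w k‖ ∧
        η ≤ ‖(d.1 * W.w k + d.2 * W.w (k + 1) : ℂ) - W.w (k + 1)‖ ∧
        ρ₀ / 2 ≤ ‖(d.1 * W.w k + d.2 * W.w (k + 1) : ℂ)‖} := by
      ext d
      constructor
      · rintro ⟨⟨h1, h2, h3, _, _⟩, h4, h5, h6⟩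
        exact ⟨h1, h2, h3, h4, h5, h6⟩
      · rintro ⟨h1, h2, h3, h4, h5, h6⟩
        refine ⟨⟨h1, h2, h3, ?_, ?_⟩, h4, h5, h6⟩
        · intro h
          have h' : d.2 = 0 := by linarith
          rw [h, h'] at h4
          simp at h4
          linarith
        · intro h
          have h' : d.1 = 0 := by linarith
          rw [h, h'] at h5
          simp at h5
          linarith
    rw [hcl]
    refine Metric.isCompact_of_isClosed_isBounded ?_ ?_
    · have c1 : Continuous fun d : ℝ × ℝ => (d.1 * W.w k + d.2 * W.w (k + 1) : ℂ) := by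
        fun_prop
      refine (isClosed_le continuous_const continuous_fst).inter
        ((isClosed_le continuous_const continuous_snd).inter
        ((isClosed_le (continuous_fst.add continuous_snd) continuous_const).inter
        ((isClosed_le continuous_const (c1.sub continuous_const).norm).inter
        ((isClosed_le continuous_const (c1.sub continuous_const).norm).inter
        (isClosed_le continuous_const c1.norm)))))
    · refine (Metric.isBounded_Icc (0 : ℝ × ℝ) 1).subset ?_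
      rintro d ⟨h1, h2, h3, _⟩
      refine ⟨⟨h1, h2⟩, ⟨?_, ?_⟩⟩
      · change d.1 ≤ 1; linarith
      · change d.2 ≤ 1; linarith
  let K : Set U := ⋃ k, pt 1 k '' A k
  have hK : IsCompact K := by
    refine isCompact_iUnion fun k => (hA k).image_of_continuousOn ?_
    have : ContinuousOn (pt 1 k) Tset := by
      rw [continuousOn_iff_continuous_domRestrict]
      exact (hT.emb 1 k).continuous
    exact this.mono fun d hd => hd.1
  have hKloc : ∀ u ∈ K, ∃ e : OpenPartialHomeomorph U ℂ, u ∈ e.source ∧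
      ∀ y ∈ e.source, e y = D y := by
    intro u hu
    refine hloc u fun g hg => ?_
    obtain ⟨k, hk⟩ := Set.mem_iUnion.1 hu
    obtain ⟨d, ⟨hd, _, _, h6⟩, rfl⟩ := hk
    rw [hT.smul, mul_one] at hg
    have h00 : ((0 : ℝ), (0 : ℝ)) ∈ Tset := ⟨le_rfl, le_rfl, by norm_num, by norm_num, by norm_num⟩
    have hd0 : d.1 = 0 ∧ d.2 = 0 := by
      rcases hT.inj _ _ _ _ _ _ hd h00 hg with h | h | h | h | h
      · rw [h.2.2]; exact ⟨rfl, rfl⟩
      · rw [h.2.1]; exact ⟨rfl, rfl⟩
      · have := (Prod.mk.inj h.2.2.2).1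
        exact ⟨h.2.2.1, this.symm⟩
      · rw [h.2.2.2]; exact ⟨rfl, rfl⟩
      · have h1 := (Prod.mk.inj h.2.2.2)
        have h2 := h.2.2.1
        rw [← h1.1, ← h1.2] at h2
        norm_num at h2
    rw [hd0.1, hd0.2] at h6
    simp at h6
    linarith
  obtain ⟨ρ, hρ, hsec⟩ := PU.uniform_section hDc hK hKloc
  -- the radius
  set r : ℝ := min (min η (ρ / 2)) (min (ρ₀ / 2) (1 / (PU.MM W + 1))) with hr
  have hMM := PU.MM_nonneg W
  have hr0 : 0 < r := by
    rw [hr]
    refine lt_min (lt_min hη0 (by positivity)) (lt_min (by positivity) (by positivity))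
  have hrη : r ≤ η := (min_le_left _ _).trans (min_le_left _ _)
  have hrρ : r ≤ ρ / 2 := (min_le_left _ _).trans (min_le_right _ _)
  have hrρ₀ : r ≤ ρ₀ / 2 := (min_le_right _ _).trans (min_le_left _ _)
  have hrM : r ≤ 1 / (PU.MM W + 1) := (min_le_right _ _).trans (min_le_right _ _)
  have hr1 : r * PU.MM W < 1 := by
    rw [le_div_iff₀ (by linarith)] at hrM
    nlinarith
  refine ⟨r, PU.jj pt W r, hr0, PU.jj_cont hT hr0 hr1, fun z => ?_,
    PU.jj_shift hT hr0 hr1, fun u g hu0 hu1 => ?_⟩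
  · rw [PU.jj_dev hr0 hr1 hD, PU.vv_eq]
  obtain ⟨h, k, d, hd, rfl⟩ := hT.surj u
  have hDu := hD h k d hd
  obtain ⟨hd1, hd2, hd3, hd4, hd5⟩ := hd
  -- the centre is far away
  have hcen : 0 < d.1 + d.2 := by
    by_contra hcon
    have hx0 : d.1 = 0 := by linarith
    have hy0 : d.2 = 0 := by linarith
    have h1 := hlat (g⁻¹ * h)
    have e : D (pt h k d) - (W.w 0 + W.tau g) = -(W.w 0 - W.tau (g⁻¹ * h)) := by
      rw [hDu, W.tau_mul, PU.tau_inv, hx0, hy0]
      push_cast
      ring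
    rw [e, norm_neg] at hu1
    linarith
  -- near a corner
  have near : ∀ (i n : ℤ) (x y : ℝ), 0 ≤ x → 0 ≤ y → 0 < x + y → x + y ≤ 1 → x ≠ 1 → y ≠ 1 →
      pt h k d = (h * (PU.H i)⁻¹) • PU.Q pt n x y →
      ‖D (pt h k d) - (W.w 0 + W.tau (h * (PU.H i)⁻¹))‖ < η →
      ∃ (g' : G) (z : ℍ), W.tau g' = W.tau g ∧ pt h k d = g' • PU.jj pt W r z := by
    intro i n x y hx hy hxy hxy1 hx1 hy1 heq hnear
    have ht : W.tau (h * (PU.H i)⁻¹) = W.tau g := by
      by_contra hne
      have hne' : W.tau (g⁻¹ * (h * (PU.H i)⁻¹)) ≠ 0 := by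
        rw [W.tau_mul, PU.tau_inv]
        intro h0
        exact hne (by linear_combination h0)
      have h1 := hdisc _ hne'
      rw [W.tau_mul, PU.tau_inv] at h1
      have h2 : ‖-W.tau g + W.tau (h * (PU.H i)⁻¹)‖ ≤ ‖D (pt h k d) - (W.w 0 + W.tau g)‖ +
          ‖D (pt h k d) - (W.w 0 + W.tau (h * (PU.H i)⁻¹))‖ := by
        have e : -W.tau g + W.tau (h * (PU.H i)⁻¹) = (D (pt h k d) - (W.w 0 + W.tau g)) -
            (D (pt h k d) - (W.w 0 + W.tau (h * (PU.H i)⁻¹))) := by ring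
        rw [e]; exact norm_sub_le _ _
      linarith
    have hdev := PU.Q_dev hD n hx hy hxy hxy1 hx1 hy1
    have hDD : D (pt h k d) = W.w 0 + x * PU.dl W n + y * PU.dl W (n + 1) +
        W.tau (h * (PU.H i)⁻¹) := by rw [heq, hDe, hdev]
    have hv : ‖(x * PU.dl W n + y * PU.dl W (n + 1) : ℂ)‖ < r := by
      have e : (x * PU.dl W n + y * PU.dl W (n + 1) : ℂ) =
          D (pt h k d) - (W.w 0 + W.tau g) := by rw [hDD, ht]; ring
      rw [e]; exact hu1
    obtain ⟨z, hz⟩ := PU.exists_jj hT hr0 hr1 n hx hy hxy hv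
    exact ⟨h * (PU.H i)⁻¹, z, ht, by rw [heq, hz]⟩
  by_cases hA1 : ‖D (pt h k d) - (W.tau h + W.w k)‖ < η
  · left
    obtain ⟨i, hi⟩ := PU.exists_kk k
    refine near i (2 * i) d.2 (1 - d.1 - d.2) hd2 (by linarith) ?_ (by linarith) hd5 ?_ ?_ ?_
    · have : d.1 < 1 := lt_of_le_of_ne (by linarith) hd4
      linarith
    · intro h0
      linarith
    · rw [PU.Q_even, hT.smul, inv_mul_cancel_right, hi]
      congr 1
      ext
      · simp only; ring
      · simp only
    · have hc := PU.corner W i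
      rw [hi] at hc
      rw [W.tau_mul, PU.tau_inv, ← hc]
      have e : W.tau (PU.H i) + W.w k + (W.tau h + -W.tau (PU.H i)) = W.tau h + W.w k := by ring
      rw [e]; exact hA1
  by_cases hA2 : ‖D (pt h k d) - (W.tau h + W.w (k + 1))‖ < η
  · left
    obtain ⟨i, hi⟩ := PU.exists_kk (k + 1)
    refine near i (2 * i + 1) (1 - d.1 - d.2) d.1 (by linarith) hd1 ?_ (by linarith) ?_ hd4 ?_ ?_
    · have : d.2 < 1 := lt_of_le_of_ne (by linarith) hd5
      linarith
    · intro h0
      linarith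
    · rw [PU.Q_odd, hT.smul, inv_mul_cancel_right, hi, PU.f8']
      congr 1
      ext
      · simp
      · simp only; ring
    · have hc := PU.corner W i
      rw [hi] at hc
      rw [W.tau_mul, PU.tau_inv, ← hc]
      have e : W.tau (PU.H i) + W.w (k + 1) + (W.tau h + -W.tau (PU.H i)) =
          W.tau h + W.w (k + 1) := by ring
      rw [e]; exact hA2
  · right
    push Not at hA1 hA2
    have hk : pt 1 k d ∈ K := by
      refine Set.mem_iUnion.2 ⟨k, d, ⟨⟨hd1, hd2, hd3, hd4, hd5⟩, ?_, ?_, ?_⟩, rfl⟩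
      · have e : (d.1 * W.w k + d.2 * W.w (k + 1) : ℂ) - W.w k =
            D (pt h k d) - (W.tau h + W.w k) := by rw [hDu]; ring
        rw [e]; exact hA1
      · have e : (d.1 * W.w k + d.2 * W.w (k + 1) : ℂ) - W.w (k + 1) =
            D (pt h k d) - (W.tau h + W.w (k + 1)) := by rw [hDu]; ring
        rw [e]; exact hA2
      · have e : (d.1 * W.w k + d.2 * W.w (k + 1) : ℂ) = (D (pt h k d) - (W.w 0 + W.tau g)) -
            (-(W.w 0 - W.tau (g⁻¹ * h))) := by
          rw [hDu, W.tau_mul, PU.tau_inv]; ring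
        have h1 := hlat (g⁻¹ * h)
        have h2 := norm_sub_norm_le (W.w 0 - W.tau (g⁻¹ * h))
          (-(D (pt h k d) - (W.w 0 + W.tau g)))
        rw [norm_neg] at h2
        have e3 : (W.w 0 - W.tau (g⁻¹ * h)) - (-(D (pt h k d) - (W.w 0 + W.tau g))) =
          (D (pt h k d) - (W.w 0 + W.tau g)) - (-(W.w 0 - W.tau (g⁻¹ * h))) := by ring
        rw [e, ← e3]
        linarith
    obtain ⟨s, hs1, hs2, hs3⟩ := hsec _ hk
    have hD1 : D (pt 1 k d) = D (pt h k d) - W.tau h := by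
      have h1 : pt h k d = h • pt 1 k d := by rw [hT.smul, mul_one]
      rw [h1, hDe]; ring
    have hmaps : ∀ y ∈ ball (W.w 0 + W.tau g) r, y - W.tau h ∈ ball (D (pt 1 k d)) ρ := by
      intro y hy
      rw [mem_ball, dist_eq_norm] at hy ⊢
      rw [hD1]
      have e : y - W.tau h - (D (pt h k d) - W.tau h) = (y - (W.w 0 + W.tau g)) -
          (D (pt h k d) - (W.w 0 + W.tau g)) := by ring
      rw [e]
      have := norm_sub_le (y - (W.w 0 + W.tau g)) (D (pt h k d) - (W.w 0 + W.tau g))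
      linarith
    refine ⟨fun y => h • s (y - W.tau h), ?_, ?_, ?_⟩
    · refine (hact h).comp_continuousOn ?_
      refine hs1.comp (f := fun y => y - W.tau h) (by fun_prop) hmaps
    · intro y hy
      simp only
      rw [hDe, hs2 _ (hmaps y hy)]; ring
    · simp only
      rw [← hD1, hs3, hT.smul, mul_one]

end Pool.Agent.CircleShift
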